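import Pool.Agent.W186.SN.FV

set_option autoImplicit false

/-!
# Narrowing of the strip under a zero-free half-plane
-/

namespace Pool.Agent.W186.SN

open Complex Filter Topology MeasureTheory Set
open Pool.Agent.H24R2.JP (XX HH Om)
open Pool.Agent.H986R2.DBN (JT XT)
open Pool.Agent.W186.HZ

theorem fwdS {y : ℝ} (hy0 : 0 ≤ y) (hy1 : y ≤ 1 / 2) (h : CT y) (m X g : ℝ) (hm : 0 < m) (hX : m ≤ X)
    (hg : 0 < g) : ∃ T0 : ℝ, 400 ≤ T0 ∧ ∀ T τ : ℝ, T0 ≤ T → 0 < τ → m ≤ 2 * τ * Om T → 2 * τ * Om T ≤ X →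
      ∀ σ : ℝ, g ≤ σ → σ ≤ 1 / 2 → 2 * y + g ≤ 2 * σ + m → XT τ (σ + I * T) ≠ 0 := by
  obtain ⟨g', hg'⟩ : ∃ g' : ℝ, g' = min (g / 2) (m / 4) := ⟨_, rfl⟩
  have hg'0 : 0 < g' := by rw [hg']; exact lt_min (by linarith) (by linarith)
  have hg'1 : g' ≤ g / 2 := by rw [hg']; exact min_le_left _ _
  obtain ⟨δ, hδ⟩ : ∃ δ : ℝ, δ = g / 8 := ⟨_, rfl⟩
  have hδ0 : 0 < δ := by rw [hδ]; linarith
  obtain ⟨c, hc0, hc1, hjl⟩ := jl hy0 hy1 h m X 1 g' hm hX (by norm_num) hg'0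
  obtain ⟨T1, hT1, hl⟩ := hjl δ hδ0
  obtain ⟨T2, hT2, hu⟩ := ju hy0 hy1 h m X 1 δ hm hX (by norm_num) hδ0
  obtain ⟨T4, hT4, hO⟩ := Om_large 1
  refine ⟨max (max T1 T2) T4, hT4.trans (le_max_right _ _), ?_⟩
  intro T τ hT hτ h1 h2 σ hσ0 hσ1 hcond hz
  have g1 : T1 ≤ T := ((le_max_left _ _).trans (le_max_left _ _)).trans hT
  have g2 : T2 ≤ T := ((le_max_right _ _).trans (le_max_left _ _)).trans hT
  have g4 : T4 ≤ T := (le_max_right _ _).trans hT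
  have hOm := hO T g4
  have hTp : 0 < T := by linarith
  have heq := Pool.Agent.H986R2.DBN.Hnz.norm_JT_eq Pool.Agent.H986R2.DBN.heat Pool.Agent.H24R2.JP.b1 τ T σ hτ hz
  have h2τ : 0 < 2 * τ := by positivity
  have e1 : 2 * τ * (((σ / (2 * τ) : ℝ) : ℂ)).re = σ := by
    rw [Complex.ofReal_re]; field_simp
  have e2 : 2 * τ * (((σ / (2 * τ) : ℝ) : ℂ)).im = 0 := by
    rw [Complex.ofReal_im, mul_zero]
  have q1 := hl T τ g1 hτ h1 h2 ((σ / (2 * τ) : ℝ) : ℂ) (by rw [e1]; linarith)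
      (by rw [e1]; linarith) (by rw [e1]; linarith) (by rw [e2, abs_zero]; exact hc0.le)
  have q2 := hu T τ g2 hτ h1 h2 (-((σ / (2 * τ) : ℝ) : ℂ)) (by
      rw [Complex.neg_re, mul_neg, e1]; linarith)
  rw [heq] at q1
  have hHp : 0 < ‖HH (I * T)‖ := by
    have h0 : HH (I * T) ≠ 0 := by
      apply Pool.Agent.H24R2.JP.StirAux.HH_ne
      simpa using hTp
    exact norm_pos_iff.2 h0
  have a3 := le_of_mul_le_mul_right (q1.trans q2) hHp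
  obtain ⟨L, hL⟩ : ∃ L : ℝ, L = Om T := ⟨_, rfl⟩
  rw [← hL] at a3 h1 h2 hOm
  rw [Real.exp_le_exp, Complex.ofReal_im, Complex.neg_re, Complex.ofReal_re] at a3
  obtain ⟨α, hα⟩ : ∃ α : ℝ, α = σ / (2 * τ) := ⟨_, rfl⟩
  rw [← hα] at a3
  have hσp : 0 < σ := by linarith
  have hα0 : 0 < α := by rw [hα]; positivity
  have hτα : 2 * τ * α = σ := by rw [hα]; field_simp
  have hLp : 0 < L := by linarith
  rw [max_eq_right (by linarith only [hα0] : -α ≤ 0), zero_mul, add_zero] at a3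
  have hgL : 0 < L * g := by positivity
  rcases max_cases (τ * (L + -α) ^ 2) (L * y) with ⟨hmx, -⟩ | ⟨hmx, -⟩
  · rw [hmx] at a3
    have a4 : τ * ((L + α) ^ 2 - 0 ^ 2) - τ * (L + -α) ^ 2 = 2 * (L * σ) := by
      rw [← hτα]; ring
    have a5 : L * g ≤ L * σ := mul_le_mul_of_nonneg_left hσ0 hLp.le
    have a6 : δ * L = L * g / 8 := by rw [hδ]; ring
    linarith only [a3, a4, a5, a6, hgL]
  · rw [hmx] at a3
    have a4 : τ * ((L + α) ^ 2 - 0 ^ 2) = L * (2 * τ * L) / 2 + L * σ + τ * α ^ 2 := by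
      rw [← hτα]; ring
    have a5 : L * (2 * y + g) ≤ L * (2 * σ + 2 * τ * L) := mul_le_mul_of_nonneg_left (by linarith only [h1, hcond]) hLp.le
    have a6 : δ * L = L * g / 8 := by rw [hδ]; ring
    have a9 : 0 ≤ τ * α ^ 2 := by positivity
    linarith only [a3, a4, a5, a6, hgL, a9]

end Pool.Agent.W186.SN
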