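import Pool.Agent.W186.SN.BE
import Pool.Agent.W186.SN.FS
import Pool.Agent.W186.HZ.Fin

set_option autoImplicit false

/-!
# Narrowing of the zero strip of the de Bruijn-Newman family
-/

namespace Pool.Agent.W186.SN

open Complex Filter Topology MeasureTheory Set
open Pool.Agent.H24R2.JP (XX HH Om)
open Pool.Agent.H986R2.DBN (JT XT Ht)
open Pool.Agent.H986R2.K4 (xi)
open Pool.Agent.W186.DX (F F_zero F_half F_xi F_fin F_conj AF xi_zero)
open Pool.Agent.W186.HZ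

/-- all zeros beyond `exp (κ / t)` are in the strip of half width `a`, for small `t` -/
def Str (κ a : ℝ) : Prop := ∃ t0 : ℝ, 0 < t0 ∧ ∀ t : ℝ, 0 < t → t < t0 → ∀ z : ℂ, Ht t z = 0 →
  Real.exp (κ / t) ≤ |z.re| → |z.im| ≤ a

/-- from zero-free regions of `XT τ` to strips -/
lemma str_of {κ a m : ℝ} (hκ : 0 < κ) (ha : 0 ≤ a) (hm2 : m < κ / 4)
    (hf : ∀ X : ℝ, m ≤ X → ∃ T0 : ℝ, 400 ≤ T0 ∧ ∀ T τ : ℝ, T0 ≤ T → 0 < τ → m ≤ 2 * τ * Om T →
      2 * τ * Om T ≤ X → ∀ σ : ℝ, a / 2 < σ → σ ≤ 1 / 2 → XT τ (σ + I * T) ≠ 0) : Str κ a := by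
  obtain ⟨C, hC, hnz⟩ := Pool.Agent.H986R2.DBN.heatNZA
  obtain ⟨T0, hT0, hf⟩ := hf (max m C) (le_max_left _ _)
  refine ⟨min (1 / 2) (min (κ / 4 - m) (κ / (2 * T0))), ?_, ?_⟩
  · exact lt_min (by norm_num) (lt_min (by linarith) (by positivity))
  intro t ht0 ht1 z hz hzr
  have t1 : t < 1 / 2 := ht1.trans_le (min_le_left _ _)
  have t2 : t < κ / 4 - m := ht1.trans_le ((min_le_right _ _).trans (min_le_left _ _))
  have t3 : t < κ / (2 * T0) := ht1.trans_le ((min_le_right _ _).trans (min_le_right _ _))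
  obtain ⟨τ, hτ⟩ : ∃ τ : ℝ, τ = t / 4 := ⟨_, rfl⟩
  have hτ0 : 0 < τ := by rw [hτ]; linarith
  have hτ8 : τ ≤ 1 / 8 := by rw [hτ]; linarith
  rw [Ht_XT ht0.le, ← hτ] at hz
  by_contra hne
  push Not at hne
  have hwr : (I * z / 2).re = -z.im / 2 := by simp
  have hwi : (I * z / 2).im = z.re / 2 := by simp
  have hst := XT_strip hτ0.le hz
  have hsy := XT_sym _ hz
  rw [hwr] at hst hsy
  rw [hwi] at hsy
  obtain ⟨σ, hσ⟩ : ∃ σ : ℝ, σ = |-z.im / 2| := ⟨_, rfl⟩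
  obtain ⟨T, hT⟩ : ∃ T : ℝ, T = |z.re / 2| := ⟨_, rfl⟩
  rw [← hσ] at hst hsy
  rw [← hT] at hsy
  have hσa : a / 2 < σ := by
    rw [hσ, abs_div, abs_neg, abs_of_pos (by norm_num : (0 : ℝ) < 2)]
    linarith
  have hσ0 : 0 < σ := by linarith
  have hT1 : Real.exp (κ / t) ≤ 2 * T := by
    rw [hT, abs_div, abs_of_pos (by norm_num : (0 : ℝ) < 2)]
    linarith
  have hTp : 0 < T := by
    have := Real.exp_pos (κ / t)
    linarith
  have hTT0 : T0 ≤ T := by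
    have h1 := Real.add_one_le_exp (κ / t)
    have h2 : 2 * T0 < κ / t := by
      rw [lt_div_iff₀ ht0]
      rw [lt_div_iff₀ (by positivity)] at t3
      linarith
    linarith
  have hlog : κ / t ≤ Real.log 2 + Real.log T := by
    rw [← Real.log_mul (by norm_num) hTp.ne', Real.le_log_iff_exp_le (by positivity)]
    exact hT1
  have hOm : m ≤ 2 * τ * Om T := by
    have e : 2 * τ * Om T = τ * Real.log T := by unfold Om; ring
    rw [e]
    have h1 : τ * (κ / t) ≤ τ * (Real.log 2 + Real.log T) := mul_le_mul_of_nonneg_left hlog hτ0.le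
    have e2 : τ * (κ / t) = κ / 4 := by rw [hτ]; field_simp
    rw [e2] at h1
    have h2 : τ * Real.log 2 ≤ τ * 1 := mul_le_mul_of_nonneg_left (by linarith [Real.log_two_lt_d9]) hτ0.le
    have h3 : τ ≤ t := by rw [hτ]; linarith
    linarith only [h1, h2, h3, t2]
  rcases le_or_gt (2 * τ * Om T) (max m C) with hc | hc
  · exact hf T τ hTT0 hτ0 hOm hc σ hσa hst hsy
  · refine hnz τ hτ0 hτ8 σ T hσ0 hst ?_ hsy
    have h1 : C < 2 * τ * Om T := (le_max_right _ _).trans_lt hc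
    have e : 2 * τ * Om T = τ * Real.log T := by unfold Om; ring
    rw [e] at h1
    have h2 : C / τ ≤ Real.log T := by
      rw [div_le_iff₀ hτ0]; linarith
    calc Real.exp (C / τ) ≤ Real.exp (Real.log T) := Real.exp_le_exp.2 h2
      _ = T := Real.exp_log hTp

/-- unconditional narrowing -/
lemma part1 (c : ℝ) (hc : c < 1 / 2) : ∃ κ0 : ℝ, 0 < κ0 ∧ ∀ κ : ℝ, 0 < κ → κ < κ0 → Str κ (1 - c * κ) := by
  obtain ⟨c1, hc1⟩ : ∃ c1 : ℝ, c1 = max c 0 := ⟨_, rfl⟩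
  have hc0 : 0 ≤ c1 := by rw [hc1]; exact le_max_right _ _
  have hcc : c ≤ c1 := by rw [hc1]; exact le_max_left _ _
  have hch : c1 < 1 / 2 := by rw [hc1]; exact max_lt hc (by norm_num)
  obtain ⟨δ, hδ⟩ : ∃ δ : ℝ, δ = (1 - 2 * c1) / 2 := ⟨_, rfl⟩
  have hδ0 : 0 < δ := by rw [hδ]; linarith
  have hδ1 : δ < 1 := by rw [hδ]; linarith
  obtain ⟨m0, hm0, hf⟩ := fwdV δ hδ0 hδ1
  refine ⟨min (4 * m0) 1, lt_min (by linarith) one_pos, fun κ hκ hκ0 => ?_⟩
  have hκ1 : κ < 4 * m0 := hκ0.trans_le (min_le_left _ _)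
  have hκ2 : κ < 1 := hκ0.trans_le (min_le_right _ _)
  obtain ⟨m, hm⟩ : ∃ m : ℝ, m = (1 - δ) * (κ / 4) := ⟨_, rfl⟩
  have hδκ : 0 < δ * (κ / 4) := by positivity
  have hm1 : 0 < m := by rw [hm]; exact mul_pos (by linarith) (by linarith)
  have hm2 : m < κ / 4 := by rw [hm]; linarith
  have hck : c1 * κ < 1 := by nlinarith
  have hck2 : c * κ ≤ c1 * κ := mul_le_mul_of_nonneg_right hcc hκ.le
  refine str_of hκ (by linarith) hm2 fun X hX => ?_
  obtain ⟨T0, hT0, h⟩ := hf m hm1 (by linarith) X hX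
  refine ⟨T0, hT0, fun T τ hT hτ h1 h2 σ hσ1 hσ2 => h T τ hT hτ h1 h2 σ ?_ hσ2⟩
  have e1 : (1 - δ) * m = (1 - 2 * δ) * (κ / 4) + δ ^ 2 * (κ / 4) := by rw [hm]; ring
  have e2 : (1 - 2 * δ) = 2 * c1 := by rw [hδ]; ring
  have e3 : 0 ≤ δ ^ 2 * (κ / 4) := by positivity
  rw [e1, e2]
  linarith

/-- narrowing under a zero-free half-plane -/
lemma part2 {θ : ℝ} (hθ : 1 / 2 ≤ θ) (h : Asy θ) {κ a : ℝ} (hκ : 0 < κ) (ha : 0 < a)
    (hc : 2 * θ - 1 - κ / 4 < a) : Str κ a := by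
  obtain ⟨y, hy0, hy1, hyθ, hCT⟩ : ∃ y : ℝ, 0 ≤ y ∧ y ≤ 1 / 2 ∧ y ≤ θ - 1 / 2 ∧ CT y := by
    rcases lt_or_ge θ 1 with h1 | h1
    · have hA : AF 0 (θ - 1 / 2) := by
        rw [af_iff (by linarith)]
        have e : 1 / 2 + (θ - 1 / 2) = θ := by ring
        rw [e]; exact h
      exact ⟨θ - 1 / 2, by linarith, by linarith, le_rfl, ct_of_AF (by linarith) (by linarith) hA⟩
    · exact ⟨1 / 2, by norm_num, le_rfl, by linarith, ct_half⟩
  obtain ⟨D, hD⟩ : ∃ D : ℝ, D = min (a - (2 * y - κ / 4)) (κ / 4) := ⟨_, rfl⟩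
  have hD0 : 0 < D := by rw [hD]; exact lt_min (by linarith) (by linarith)
  have hD1 : D ≤ a - (2 * y - κ / 4) := by rw [hD]; exact min_le_left _ _
  have hD2 : D ≤ κ / 4 := by rw [hD]; exact min_le_right _ _
  obtain ⟨m, hm⟩ : ∃ m : ℝ, m = κ / 4 - D / 2 := ⟨_, rfl⟩
  have hm0 : 0 < m := by rw [hm]; linarith
  refine str_of hκ ha.le (m := m) (by rw [hm]; linarith) fun X hX => ?_
  obtain ⟨T0, hT0, hf⟩ := fwdS hy0 hy1 hCT m X (min (a / 2) (D / 2)) hm0 hX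
    (lt_min (by linarith) (by linarith))
  refine ⟨T0, hT0, fun T τ hT hτ h1 h2 σ hσ1 hσ2 => hf T τ hT hτ h1 h2 σ ?_ hσ2 ?_⟩
  · exact (min_le_left _ _).trans hσ1.le
  · have := min_le_right (a / 2) (D / 2)
    rw [hm]
    linarith

/-- the backward direction -/
lemma part3 {κ a : ℝ} (hκ : 0 < κ) (ha : 0 ≤ a) (h : Str κ a) : Asy (1 / 2 + (a / 2 + κ / 4)) := by
  rcases lt_or_ge 1 a with ha1 | ha1
  · intro ε hε
    refine (asy_one ε hε).subset ?_
    rintro s ⟨s1, s2⟩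
    exact ⟨by linarith, s2⟩
  rw [← af_iff (by positivity)]
  intro ε hε
  obtain ⟨t0, ht0, hh⟩ := h
  obtain ⟨g, hg⟩ : ∃ g : ℝ, g = min ε 1 := ⟨_, rfl⟩
  have hg0 : 0 < g := by rw [hg]; exact lt_min hε one_pos
  have hg1 : g ≤ ε := by rw [hg]; exact min_le_left _ _
  have hg2 : g ≤ 1 := by rw [hg]; exact min_le_right _ _
  obtain ⟨T1, hT1, hb⟩ := bwdE (κ / 4) (κ / 4 + g / 2) (g / 2) (a / 2) (by positivity) (by linarith)
    (by linarith) (by linarith) (by linarith) (by linarith)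
  obtain ⟨T2, hT2, hO⟩ := Om_large (max (κ / g + 1) (κ / t0 + 1))
  have key : ∀ T : ℝ, max T1 T2 ≤ T → ∀ x : ℝ, a / 2 + κ / 4 + g ≤ x → x ≤ 2 → XX (x + I * T) ≠ 0 := by
    intro T hT x hx1 hx2
    have g1 : T1 ≤ T := (le_max_left _ _).trans hT
    have g2 : T2 ≤ T := (le_max_right _ _).trans hT
    have hOm := hO T g2
    have hO1 : κ / g + 1 ≤ Om T := (le_max_left _ _).trans hOm
    have hO2 : κ / t0 + 1 ≤ Om T := (le_max_right _ _).trans hOm
    have hT400 : 400 ≤ T := hT2.trans g2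
    have hTp : 0 < T := by linarith
    have hl2 := Real.log_two_lt_d9
    have hl2' := Real.log_two_gt_d9
    have elog : Real.log (T / 2) = 2 * Om T - Real.log 2 := by
      rw [Real.log_div hTp.ne' (by norm_num)]
      unfold Om
      ring
    have hκg : 0 < κ / g := by positivity
    have hκt : 0 < κ / t0 := by positivity
    have hlp : 0 < Real.log (T / 2) := by rw [elog]; linarith
    obtain ⟨t, ht⟩ : ∃ t : ℝ, t = κ / Real.log (T / 2) := ⟨_, rfl⟩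
    have htp : 0 < t := by rw [ht]; positivity
    have htt0 : t < t0 := by
      rw [ht, div_lt_iff₀ hlp, elog]
      have : κ = t0 * (κ / t0) := by field_simp
      nlinarith
    have hexp : Real.exp (κ / t) = T / 2 := by
      have : κ / t = Real.log (T / 2) := by rw [ht]; field_simp
      rw [this, Real.exp_log (by linarith)]
    have e2 : 2 * (t / 4) * Om T = κ / 4 * (2 * Om T / Real.log (T / 2)) := by
      rw [ht]; field_simp
    have h3 : κ / 4 * (2 * Om T / Real.log (T / 2)) = κ / 4 + κ / 4 * (Real.log 2 / Real.log (T / 2)) := by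
      rw [elog]
      rw [elog] at hlp
      field_simp
      ring
    have h4 : κ / 4 * (Real.log 2 / Real.log (T / 2)) ≤ g / 2 := by
      rw [← mul_div_assoc, div_le_iff₀ hlp, elog]
      have : κ = g * (κ / g) := by field_simp
      nlinarith
    refine hb T (t / 4) g1 (by linarith) ?_ ?_ ?_ x ?_ hx2
    · rw [e2]
      have : 1 ≤ 2 * Om T / Real.log (T / 2) := by
        rw [le_div_iff₀ hlp, elog]; linarith
      nlinarith
    · rw [e2, h3]
      linarith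
    · intro w hw0 hw1 hw2 hw3
      have hz : Ht t (-(2 * I) * w) = 0 := by
        rw [Ht_XT htp.le]
        have e : I * (-(2 * I) * w) / 2 = w := by
          have : I * (-(2 * I) * w) / 2 = -(I * I) * w := by ring
          rw [this, Complex.I_mul_I]; ring
        rw [e]; exact hw3
      have hzr : (-(2 * I) * w).re = 2 * w.im := by simp
      have hzi : (-(2 * I) * w).im = -(2 * w.re) := by simp
      have h3 := hh t htp htt0 _ hz (by
        rw [hexp, hzr, abs_of_nonneg (by linarith)]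
        linarith)
      rw [hzi, abs_neg, abs_of_pos (by linarith)] at h3
      linarith
    · rw [e2, h3]
      linarith
  refine (F_fin 0 (a / 2 + κ / 4) (1 / 2) (max T1 T2)).subset fun z hz => ?_
  obtain ⟨h1, h2⟩ := hz
  have h3 := (abs_le.1 (F_half h2)).2
  refine ⟨by linarith, h3, ?_, h2⟩
  by_contra hc
  push Not at hc
  have e0 : ∀ v : ℂ, F 0 v = XX v := fun v => by rw [F_zero]
  rcases le_total 0 z.im with h4 | h4
  · rw [abs_of_nonneg h4] at hc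
    apply key z.im hc.le z.re (by linarith) (by linarith)
    have e : ((z.re : ℝ) : ℂ) + I * (z.im : ℂ) = z := by
      apply Complex.ext <;> simp
    rw [e, ← e0]; exact h2
  · rw [abs_of_nonpos h4] at hc
    apply key (-z.im) hc.le z.re (by linarith) (by linarith)
    have e : ((z.re : ℝ) : ℂ) + I * ((-z.im : ℝ) : ℂ) = (starRingEnd ℂ) z := by
      apply Complex.ext <;> simp
    rw [e, ← e0, F_conj, h2, map_zero]

theorem main :
    (∀ c : ℝ, c < 1 / 2 → ∃ κ0 : ℝ, 0 < κ0 ∧ ∀ κ : ℝ, 0 < κ → κ < κ0 → Str κ (1 - c * κ)) ∧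
    (∀ θ : ℝ, 1 / 2 ≤ θ → Asy θ → ∀ κ a : ℝ, 0 < κ → 0 < a → 2 * θ - 1 - κ / 4 < a → Str κ a) ∧
    (∀ κ a : ℝ, 0 < κ → 0 ≤ a → Str κ a → Asy (1 / 2 + (a / 2 + κ / 4))) ∧
    ((∃ θ : ℝ, θ < 1 ∧ ∀ s : ℂ, θ < s.re → riemannZeta s ≠ 0) ↔
      ∃ κ a : ℝ, 0 < κ ∧ 0 ≤ a ∧ a < 1 - κ / 2 ∧ Str κ a) := by
  refine ⟨part1, fun θ hθ h κ a hκ ha hc => part2 hθ h hκ ha hc, fun κ a hκ ha h => part3 hκ ha h, ?_, ?_⟩
  · rintro ⟨θ, hθ, hz⟩
    obtain ⟨θ', hθ'⟩ : ∃ θ' : ℝ, θ' = max θ (1 / 2) := ⟨_, rfl⟩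
    have h1 : θ ≤ θ' := by rw [hθ']; exact le_max_left _ _
    have h2 : 1 / 2 ≤ θ' := by rw [hθ']; exact le_max_right _ _
    have h3 : θ' < 1 := by rw [hθ']; exact max_lt hθ (by norm_num)
    have hA : Asy θ' := by
      intro ε hε
      convert Set.finite_empty (α := ℂ)
      rw [Set.eq_empty_iff_forall_notMem]
      rintro s ⟨s1, s2⟩
      exact hz s (by linarith) s2
    exact ⟨1 - θ', θ', by linarith, by linarith, by linarith, part2 h2 hA (by linarith) (by linarith) (by linarith)⟩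
  · rintro ⟨κ, a, hκ, ha, hc, h⟩
    have h1 := part3 hκ ha h
    rw [← af_iff (by positivity)] at h1
    rw [Pool.Agent.W186.DX.q1 0]
    have h3 := h1 ((1 / 2 - (a / 2 + κ / 4)) / 2) (by linarith)
    refine ⟨1 / 2 + ((a / 2 + κ / 4) + (1 / 2 - (a / 2 + κ / 4)) / 2), by linarith, ?_⟩
    refine (h3.image (fun z => z + 1 / 2)).subset ?_
    rintro s ⟨s1, s2⟩
    refine ⟨s - 1 / 2, ⟨?_, (F_xi 0 s).1 s2⟩, by simp⟩
    rw [Pool.Agent.H986R2.K4.XiAux.half_re]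
    linarith

end Pool.Agent.W186.SN
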