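import Pool.Agent.W186.SN.JL3
import Pool.Agent.H986R2.K4.VdC

set_option autoImplicit false

/-!
# The majorant from van der Corput's method
-/

namespace Pool.Agent.W186.SN

open Complex Filter Topology MeasureTheory Set
open Pool.Agent.H24R2.JP (XX HH Om)
open Pool.Agent.H986R2.DBN (JT XT)
open Pool.Agent.W186.HZ

/-- the majorant -/
noncomputable def phv (d e0 r : ℝ) : ℝ :=
  if 1 / 2 ≤ r then r else if 1 / 2 - e0 ≤ r then r + 2 * d * (1 / 2 - r) else 1 / 2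

lemma plk (x0 ν C : ℝ) (hx0 : 0 < x0) (hx1 : x0 ≤ 1) (hν0 : 0 ≤ ν) (hν1 : ν ≤ 1) (hC : 0 < C)
    (h : ∀ t : ℝ, 2 ≤ t → ‖riemannZeta (1 / 2 + x0 + t * I)‖ ≤ C * t ^ ν) (ε : ℝ) (hε : 0 < ε) :
    ∃ T0 : ℝ, 400 ≤ T0 ∧ ∀ T : ℝ, T0 ≤ T → ∀ u : ℂ, |u.re| ≤ x0 → |u.im| ≤ 1 →
      ‖XX (I * T + u)‖ ≤ Real.exp (Om T * (x0 + 2 * ν + ε)) * ‖HH (I * T)‖ := by
  obtain ⟨C', T3, hC', hT3, hP⟩ := Pool.Agent.H986R2.K4.pl Pool.Agent.H986R2.K4.hh x0 ν C 2 1 hx0 hx1
    hν0 hν1 hC (by norm_num) le_rfl h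
  obtain ⟨T4, hT4, hO⟩ := Om_large (|Real.log C'| / ε)
  refine ⟨max T3 T4, hT4.trans (le_max_right _ _), fun T hT u hu1 hu2 => ?_⟩
  have g3 : T3 ≤ T := (le_max_left _ _).trans hT
  have g4 : T4 ≤ T := (le_max_right _ _).trans hT
  have hOm := hO T g4
  rw [div_le_iff₀ hε] at hOm
  have hTp : 0 < T := by linarith
  have h2 := hP T u g3 hu1 hu2
  refine h2.trans ?_
  have hCe : C' = Real.exp (Real.log C') := (Real.exp_log hC').symm
  have hTe : T ^ ν = Real.exp (2 * Om T * ν) := by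
    rw [Real.rpow_def_of_pos hTp]
    unfold Om
    congr 1
    ring
  rw [hTe, hCe, ← mul_assoc, ← Real.exp_add, ← Real.exp_add]
  have h3 : Real.log C' + 2 * Om T * ν + x0 * Om T ≤ Om T * (x0 + 2 * ν + ε) := by
    have := le_abs_self (Real.log C')
    linarith
  have := Real.exp_le_exp.2 h3
  gcongr

lemma ubv (d : ℝ) (hd : 0 < d) (hd1 : d ≤ 1) : ∃ e0 : ℝ, 0 < e0 ∧ e0 ≤ 1 / 4 ∧ UB (phv d e0) := by
  obtain ⟨e0, he0, he1, hv⟩ := Pool.Agent.H986R2.K4.vdcQ d hd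
  refine ⟨e0, he0, he1, ?_⟩
  intro ε R hε hR
  obtain ⟨N, hN⟩ : ∃ N : ℕ, N = ⌈4 / ε⌉₊ + 1 := ⟨_, rfl⟩
  have hN0 : (0 : ℝ) < N := by rw [hN]; push_cast; positivity
  have hN1 : 4 / ε ≤ N := by
    rw [hN]; push_cast
    have := Nat.le_ceil (4 / ε)
    linarith
  obtain ⟨h, hh⟩ : ∃ h : ℝ, h = e0 / N := ⟨_, rfl⟩
  have hh0 : 0 < h := by rw [hh]; positivity
  have hh1 : h ≤ ε / 4 := by
    rw [hh, div_le_iff₀ hN0]
    rw [div_le_iff₀ hε] at hN1
    nlinarith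
  have hNh : N * h = e0 := by rw [hh]; field_simp
  obtain ⟨T1, hT1, hp⟩ := prof (y := 1 / 2) (by norm_num) le_rfl ct_half (ε / 2) R (by linarith) hR
  have hk : ∀ k ∈ Finset.Icc 1 N, ∀ᶠ T : ℝ in atTop, ∀ u : ℂ, |u.re| ≤ 1 / 2 - k * h → |u.im| ≤ 1 →
      ‖XX (I * T + u)‖ ≤ Real.exp (Om T * ((1 / 2 - k * h) + 2 * (d * (k * h)) + ε / 4)) * ‖HH (I * T)‖ := by
    intro k hk
    rw [Finset.mem_Icc] at hk
    have k1 : (1 : ℝ) ≤ k := by exact_mod_cast hk.1
    have k2 : (k : ℝ) ≤ N := by exact_mod_cast hk.2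
    have e1 : 0 < (k : ℝ) * h := by positivity
    have e2 : (k : ℝ) * h ≤ e0 := by
      rw [← hNh]; gcongr
    obtain ⟨C, hC, hz⟩ := hv (k * h) e1 e2
    obtain ⟨T0, hT0, h0⟩ := plk (1 / 2 - k * h) (d * (k * h)) C (by linarith) (by linarith) (by positivity)
      (by nlinarith) hC (by
        intro t ht
        have := hz t ht
        have e : (1 / 2 + ((1 / 2 - k * h : ℝ) : ℂ) + t * I) = 1 - ((k * h : ℝ) : ℂ) + t * I := by
          push_cast; ring
        rw [e]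
        exact this) (ε / 4) (by linarith)
    filter_upwards [eventually_ge_atTop T0] with T hT u hu1 hu2
    exact h0 T hT u hu1 hu2
  rw [← Filter.eventually_all_finset] at hk
  obtain ⟨T2, hT2⟩ := Filter.eventually_atTop.1 hk
  refine ⟨max T1 T2, hT1.trans (le_max_left _ _), fun T hT u hu0 hu1 hu2 => ?_⟩
  have g1 : T1 ≤ T := (le_max_left _ _).trans hT
  have g2 : T2 ≤ T := (le_max_right _ _).trans hT
  have hOp : 0 ≤ Om T := by
    unfold Om
    have := Real.log_nonneg (show (1 : ℝ) ≤ T by linarith)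
    linarith
  have hb := hp T g1 u hu0 hu1 hu2
  have hmono : ∀ a b : ℝ, a ≤ b → Real.exp (Om T * a) * ‖HH (I * T)‖ ≤ Real.exp (Om T * b) * ‖HH (I * T)‖ := by
    intro a b hab
    have := Real.exp_le_exp.2 (mul_le_mul_of_nonneg_left hab hOp)
    gcongr
  unfold phv
  split_ifs with c1 c2
  · refine hb.trans (hmono _ _ ?_)
    rw [max_eq_left c1]; linarith
  · push Not at c1
    rcases lt_or_ge (1 / 2 - u.re) h with c3 | c3
    · refine hb.trans (hmono _ _ ?_)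
      rw [max_eq_right c1.le]
      have : 0 ≤ 2 * d * (1 / 2 - u.re) := mul_nonneg (by linarith) (by linarith)
      linarith
    · obtain ⟨k, hkd⟩ : ∃ k : ℕ, k = ⌊(1 / 2 - u.re) / h⌋₊ := ⟨_, rfl⟩
      have hq0 : 0 ≤ (1 / 2 - u.re) / h := div_nonneg (by linarith) hh0.le
      have k1 : (k : ℝ) ≤ (1 / 2 - u.re) / h := by rw [hkd]; exact Nat.floor_le hq0
      have k2 : (1 / 2 - u.re) / h < k + 1 := by rw [hkd]; exact Nat.lt_floor_add_one _
      rw [le_div_iff₀ hh0] at k1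
      rw [div_lt_iff₀ hh0] at k2
      have k3 : k ∈ Finset.Icc 1 N := by
        rw [Finset.mem_Icc]
        constructor
        · rw [hkd]
          apply Nat.le_floor
          rw [Nat.cast_one, le_div_iff₀ hh0]
          linarith
        · have : (k : ℝ) * h ≤ N * h := by rw [hNh]; linarith
          have := le_of_mul_le_mul_right this hh0
          exact_mod_cast this
      refine (hT2 T g2 k k3 u (by rw [abs_of_nonneg hu0]; linarith) hu2).trans (hmono _ _ ?_)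
      have : d * (k * h) ≤ d * (1 / 2 - u.re) := mul_le_mul_of_nonneg_left k1 hd.le
      linarith
  · push Not at c1
    refine hb.trans (hmono _ _ ?_)
    rw [max_eq_right c1.le]; linarith

end Pool.Agent.W186.SN
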