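import Pool.Agent.W186.HZ.JL2

set_option autoImplicit false

/-!
# Lower bound for `JT`: general majorant
-/

namespace Pool.Agent.W186.SN

open Complex Filter Topology MeasureTheory Set
open Pool.Agent.H24R2.JP (XX HH Om)
open Pool.Agent.H986R2.DBN (JT XT)
open Pool.Agent.W186.HZ

/-- the size of `XX` at distance `r` to the right of the line has exponent at most `φ r` -/
def UB (φ : ℝ → ℝ) : Prop := ∀ ε R : ℝ, 0 < ε → 1 ≤ R → ∃ T0 : ℝ, 400 ≤ T0 ∧ ∀ T : ℝ, T0 ≤ T →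
  ∀ u : ℂ, 0 ≤ u.re → u.re ≤ R → |u.im| ≤ 1 →
    ‖XX (I * T + u)‖ ≤ Real.exp (Om T * (φ u.re + ε)) * ‖HH (I * T)‖

/-- All estimates at one height. -/
lemma core_step2 {y m X g κ c θ ε1 ε2 R0 R ρ a0 T τ L σ b s H : ℝ} {a z w0 : ℂ} (hτ : 0 < τ)
    (hm : 0 < m) (hX : 0 < X) (h1 : m ≤ 2 * τ * L) (h2 : 2 * τ * L ≤ X) (hL : 0 < L)
    (hs2 : s ^ 2 = 1 / (2 * τ)) (hs1 : 1 ≤ s) (hsL2 : s ^ 2 ≤ L / m) (hσ0 : 0 ≤ σ)
    (hg0 : 0 < g) (hg2 : y + g ≤ σ + 2 * τ * L) (hy0 : 0 ≤ y)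
    (hρ0 : 0 < ρ) (hρ1 : ρ ≤ g / 2) (hρ2 : ρ ≤ 1 / 2)
    (ha0 : a0 = ρ / 5) (hκ0 : 0 < κ) (hκ3 : κ ≤ 1)
    (hc1 : c ≤ 1 / 4) (hc4 : c ^ 2 / (4 * τ) ≤ κ / 16 * L) (hε10 : 0 < ε1) (hε12 : ε1 ≤ κ / 16)
    (hθ0 : 0 < θ) (hθ1 : θ ≤ ρ / 100000) (hθ2 : θ ≤ c) (hθ3 : θ ≤ ε1 / 3) (hθ4 : θ ≤ 2 * m)
    (hε21 : ε2 ≤ ε1) (hgr : 2 * L / m ≤ Real.exp (ε1 * L)) (hH : 0 < H)
    (hz : z = I * T + 2 * τ * a) (hσ : σ = 2 * τ * a.re) (hb : b = 2 * τ * a.im) (hbc : |b| ≤ c)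
    (hzr : z.re = σ) (hzi : z.im = T + b) (hR0R : R0 ≤ R) (hR : σ + 2 * τ * L + 1 ≤ R)
    (hL3 : 4 * (R + 1) ≤ κ * L) (hL4 : 1 ≤ ε1 * L)
    (hv1 : |w0.re - (σ + 2 * τ * L)| ≤ θ) (hv2 : |w0.im - (T + b)| ≤ θ)
    (s3 : Real.exp (L * (w0.re - ε2)) * H ≤ ‖XX w0‖)
    (hw2 : 1 / 2 / s * ‖Q XX s z w0‖ ≤ ‖∫ u in (-a0)..a0, Q XX s z (w0 + u)‖)
    (hnear : ∀ w : ℂ, 0 ≤ w.re → w.re ≤ R → |w.im - z.im| ≤ c → a0 ≤ |w.re - w0.re| →
      ‖Q XX s z w‖ ≤ Real.exp ((L * σ + τ * L ^ 2) - 3 / 4 * κ * L) * H)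
    (ht : ∀ r : ℝ, R0 ≤ r →
      Real.exp (-(r ^ 2 / (4 * τ)) + a.re * r) * ‖XX (I * T + r)‖ ≤ Real.exp (-L - r) * H)
    (hJi : IntegrableOn (Fj τ T a) (Ioi 0)) :
    Real.exp ((L * σ + τ * L ^ 2) - 4 * ε1 * L) * H ≤ ‖cexp (-(τ * a ^ 2)) * JT τ T a‖ := by
  have hv1' := abs_le.1 hv1
  have hv2' := abs_le.1 hv2
  have hbc' := abs_le.1 hbc
  have ha00 : 0 < a0 := by rw [ha0]; positivity
  obtain ⟨E, hE⟩ : ∃ E : ℝ, E = L * σ + τ * L ^ 2 := ⟨_, rfl⟩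
  have hx0 : 0 < 2 * τ * L := by positivity
  have hEp : 0 ≤ E := by
    rw [hE]
    positivity
  have hmain := (main_term hτ hm h1 hL hθ0 hθ3 hθ4 hε21 hs2 hs1 hsL2 hgr hzr hv1 s3 hH.le).trans hw2
  rw [← hE] at hmain ⊢
  have hθa : θ ≤ a0 / 4 := by rw [ha0]; linarith only [hθ1, hρ0]
  have hva1 : y ≤ w0.re - a0 := by rw [ha0]; linarith only [hv1'.1, hg2, hρ1, hρ0, hθ1]
  have hva3 : a0 < w0.re := by rw [ha0]; linarith only [hv1'.1, hg2, hρ1, hρ0, hθ1, hy0]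
  have hva2 : w0.re + a0 ≤ R := by rw [ha0]; linarith only [hv1'.2, hR, hρ2, hθ1]
  have himb : |w0.im - T| ≤ 1 := by
    rw [abs_le]
    constructor <;> linarith only [hv2'.1, hv2'.2, hbc'.1, hbc'.2, hθ2, hc1]
  rw [← hE] at hnear
  have hκL : 0 < κ * L := by positivity
  have hmono : Real.exp (E - 3 / 4 * κ * L) * H ≤ Real.exp (E - κ * L / 2) * H := by
    have : E - 3 / 4 * κ * L ≤ E - κ * L / 2 := by linarith only [hκL]
    gcongr
  have hvert : ∀ x η : ℝ, (x = w0.re - a0 ∨ x = w0.re + a0) → η ∈ uIcc T w0.im →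
      ‖Q XX s z (x + η * I)‖ ≤ Real.exp (E - κ * L / 2) * H := by
    intro x η hx hη
    have e1 : ((x : ℂ) + η * I).re = x := by simp
    have e2 : ((x : ℂ) + η * I).im = η := by simp
    have hxy : 0 ≤ x := by
      rcases hx with rfl | rfl
      · linarith only [hva1, hy0]
      · linarith only [hva3, ha00]
    have hxR : x ≤ R := by
      rcases hx with rfl | rfl
      · linarith only [hva2, ha00]
      · linarith only [hva2]
    refine (hnear _ (by rw [e1]; exact hxy) (by rw [e1]; exact hxR) ?_ ?_).trans hmono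
    · rw [e2, hzi, abs_le]
      rw [mem_uIcc] at hη
      rcases hη with hη | hη
      · constructor <;> linarith only [hη.1, hη.2, hv2'.1, hv2'.2, hbc'.1, hbc'.2, hθ2]
      · constructor <;> linarith only [hη.1, hη.2, hv2'.1, hv2'.2, hbc'.1, hbc'.2, hθ2]
    · rw [e1]
      rcases hx with rfl | rfl
      · rw [sub_sub_cancel_left, abs_neg, abs_of_pos ha00]
      · rw [add_sub_cancel_left, abs_of_pos ha00]
  have hshift := shift (Q_diff Pool.Agent.H24R2.JP.B1h.XX_diff s z) T a0 _ w0 ha00 hvert himb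
  have hJ : ∫ r in Ioi (0 : ℝ), Q XX s z (I * T + r) = cexp (-(τ * a ^ 2)) * JT τ T a := by
    have e : JT τ T a = ∫ r in Ioi (0 : ℝ), Fj τ T a r := rfl
    rw [e, ← integral_const_mul]
    refine integral_congr_ae (Eventually.of_forall fun r => ?_)
    rw [hz]
    exact Q_Fj hτ hs2 a r
  have hQi : IntegrableOn (fun r : ℝ => Q XX s z (I * T + r)) (Ioi 0) := by
    have := hJi.const_mul (cexp (-(τ * a ^ 2)))
    refine this.congr (Eventually.of_forall fun r => ?_)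
    rw [hz]
    exact (Q_Fj hτ hs2 a r).symm
  have hB0 : 0 ≤ Real.exp (E - κ * L / 2) * H := by positivity
  have hhalf := half hQi hva3 ha00 hB0 (by
    intro r hr0 hra
    rcases le_or_gt r R0 with hrR | hrR
    · have e1 : (I * (T : ℂ) + r).re = r := by simp
      have e2 : (I * (T : ℂ) + r).im = T := by simp
      have h5 := hnear (I * T + r) (by rw [e1]; exact hr0.le) (by rw [e1]; exact hrR.trans hR0R)
        (by rw [e2, hzi, sub_add_cancel_left, abs_neg]; exact hbc) (by rw [e1]; exact hra)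
      refine h5.trans ?_
      have e3 : Real.exp (E - κ * L / 2) * H * Real.exp (-r) = Real.exp (E - κ * L / 2 + -r) * H := by
        rw [Real.exp_add]; ring
      rw [e3]
      have : E - 3 / 4 * κ * L ≤ E - κ * L / 2 + -r := by linarith only [hL3, hrR, hR0R]
      gcongr
    · rw [hz]
      exact pt_far hτ hL hs2 hκ0 hκ3 hEp hb hbc hc4 hH.le (ht r hrR.le))
  rw [hJ] at hhalf
  refine fin_num hH hκ0 hε10 (by linarith only [hε12]) ?_ hL4 (J := ‖∫ r in (w0.re - a0)..(w0.re + a0),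
      Q XX s z (I * T + r)‖ - Real.exp (E - κ * L / 2) * H) ?_ hhalf
  · have : 1 ≤ R := by linarith only [hR, hg2, hy0, hg0]
    linarith only [hL3, this]
  · linarith only [hmain, hshift]


/-- pointwise bound away from the saddle -/
lemma pt_near2 {κ c ε1 τ L σ s H f : ℝ} {z w : ℂ} (hτ : 0 < τ) (hL : 0 < L) (hs2 : s ^ 2 = 1 / (2 * τ))
    (hoff : f - (w.re - σ) ^ 2 / (2 * (2 * τ * L)) ≤ σ + 2 * τ * L / 2 - κ) (hκ0 : 0 < κ) (hε12 : ε1 ≤ κ / 16)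
    (hc4 : c ^ 2 / (4 * τ) ≤ κ / 16 * L) (hzr : z.re = σ) (him : |w.im - z.im| ≤ c)
    (hb : ‖XX w‖ ≤ Real.exp (L * (f + ε1)) * H) (hH : 0 ≤ H) :
    ‖Q XX s z w‖ ≤ Real.exp ((L * σ + τ * L ^ 2) - 3 / 4 * κ * L) * H := by
  rw [Q_norm hτ hs2, hzr]
  have hη2 : (w.im - z.im) ^ 2 / (4 * τ) ≤ κ / 16 * L := by
    refine le_trans ?_ hc4
    have : (w.im - z.im) ^ 2 ≤ c ^ 2 := by
      rw [← sq_abs]; gcongr
    gcongr
  have hoff2 : L * f - (w.re - σ) ^ 2 / (4 * τ) ≤ (L * σ + τ * L ^ 2) - κ * L := by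
    have e1 := mul_le_mul_of_nonneg_left hoff hL.le
    have e2 : L * (f - (w.re - σ) ^ 2 / (2 * (2 * τ * L))) = L * f - (w.re - σ) ^ 2 / (4 * τ) := by
      field_simp
      ring
    have e3 : L * (σ + 2 * τ * L / 2 - κ) = (L * σ + τ * L ^ 2) - κ * L := by ring
    rw [e2, e3] at e1
    exact e1
  calc Real.exp (-(((w.re - σ) ^ 2 - (w.im - z.im) ^ 2) / (4 * τ))) * ‖XX w‖
      ≤ Real.exp (-(((w.re - σ) ^ 2 - (w.im - z.im) ^ 2) / (4 * τ))) *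
        (Real.exp (L * (f + ε1)) * H) := by gcongr
    _ = Real.exp (-(((w.re - σ) ^ 2 - (w.im - z.im) ^ 2) / (4 * τ)) + L * (f + ε1)) * H := by
        rw [← mul_assoc, ← Real.exp_add]
    _ ≤ _ := by
        have e4 : -(((w.re - σ) ^ 2 - (w.im - z.im) ^ 2) / (4 * τ)) =
            -((w.re - σ) ^ 2 / (4 * τ)) + (w.im - z.im) ^ 2 / (4 * τ) := by ring
        have e5 : L * ε1 ≤ L * (κ / 16) := mul_le_mul_of_nonneg_left hε12 hL.le
        have e6 : 0 < κ * L := by positivity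
        have : -(((w.re - σ) ^ 2 - (w.im - z.im) ^ 2) / (4 * τ)) + L * (f + ε1) ≤
            (L * σ + τ * L ^ 2) - 3 / 4 * κ * L := by
          rw [e4]
          linarith only [hoff2, hη2, e5, e6]
        gcongr

end Pool.Agent.W186.SN
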