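import Pool.Agent.W186.SN.WE
import Pool.Agent.W186.HZ.Bw2

set_option autoImplicit false

/-!
# The backward direction, for strips
-/

namespace Pool.Agent.W186.SN

open Complex Filter Topology MeasureTheory Set
open Pool.Agent.H24R2.JP (XX HH Om)
open Pool.Agent.H24R2.JP.StirAux
open Pool.Agent.H986R2.DBN (JT XT)
open Pool.Agent.W186.HZ

/-- bounds at all heights between `T/2` and `3T/2` -/
lemma pwE (m X ε η : ℝ) (hm : 0 < m) (hX : m ≤ X) (hε : 0 < ε) (hε4 : ε ≤ 1 / 4) (hη0 : 0 ≤ η) (hη1 : η ≤ 1 / 2) : ∃ T0 : ℝ, 400 ≤ T0 ∧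
    ∀ T τ : ℝ, T0 ≤ T → 0 < τ → m ≤ 2 * τ * Om T → 2 * τ * Om T ≤ X →
      (∀ w : ℂ, η < w.re → T / 2 - 10 ≤ w.im → w.im ≤ 2 * T → XT τ w ≠ 0) →
      ∀ h : ℝ, |h| ≤ T / 2 → ∀ σ : ℝ, η + ε ≤ σ → σ ≤ 3 →
      ‖logDeriv (XT τ) (σ + I * ((T + h : ℝ) : ℂ)) - (Om T : ℂ)‖ ≤ ε * Om T + 1 ∧
      Real.exp (Om T * σ + τ * Om T ^ 2 - (X + 3) - ε * Om T - |h|) * ‖HH (I * T)‖ ≤
        ‖XT τ (σ + I * ((T + h : ℝ) : ℂ))‖ ∧
      ‖XT τ (σ + I * ((T + h : ℝ) : ℂ))‖ ≤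
        Real.exp (Om T * σ + τ * Om T ^ 2 + (X + 3) + ε * Om T + |h|) * ‖HH (I * T)‖ := by
  obtain ⟨T1, hT1, hw⟩ := wtE (m / 2) (2 * X) ε η (by linarith) (by linarith) hε hε4 hη0 hη1
  obtain ⟨T2, hT2, hHm⟩ := HH_move
  obtain ⟨T4, hT4, hO⟩ := Om_large 1
  refine ⟨max (max (2 * T1) (2 * T2)) T4, hT4.trans (le_max_right _ _), ?_⟩
  intro T τ hT hτ h1 h2 hz h hh σ hσ0 hσ1
  have g1 : 2 * T1 ≤ T := ((le_max_left _ _).trans (le_max_left _ _)).trans hT
  have g2 : 2 * T2 ≤ T := ((le_max_right _ _).trans (le_max_left _ _)).trans hT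
  have g4 : T4 ≤ T := (le_max_right _ _).trans hT
  have hO2 := hO T g4
  have hT400 : 400 ≤ T := hT4.trans g4
  obtain ⟨T', hT'⟩ : ∃ T' : ℝ, T' = T + h := ⟨_, rfl⟩
  have hh' := abs_le.1 hh
  have hOn := Om_half (T' := T') hT400 (by rw [hT', add_sub_cancel_left]; exact hh)
  rw [abs_le] at hOn
  obtain ⟨L, hL⟩ : ∃ L : ℝ, L = Om T := ⟨_, rfl⟩
  obtain ⟨L', hL'⟩ : ∃ L' : ℝ, L' = Om T' := ⟨_, rfl⟩
  rw [← hL, ← hL'] at hOn
  rw [← hL] at h1 h2 hO2 ⊢
  rw [← hT']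
  have hτX : τ * L ≤ X / 2 := by linarith only [h2]
  have hτ1 : τ ≤ X / 2 := by
    have : τ * 1 ≤ τ * L := mul_le_mul_of_nonneg_left hO2 hτ.le
    linarith only [this, hτX]
  have h1' : m / 2 ≤ 2 * τ * L' := by
    have : 2 * τ * (1 / 2 * L) ≤ 2 * τ * L' := by
      apply mul_le_mul_of_nonneg_left _ (by positivity)
      linarith only [hOn.1, hO2]
    linarith only [this, h1]
  have h2' : 2 * τ * L' ≤ 2 * X := by
    have : 2 * τ * L' ≤ 2 * τ * (2 * L) := by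
      apply mul_le_mul_of_nonneg_left _ (by positivity)
      linarith only [hOn.2, hO2]
    linarith only [this, h2]
  rw [hL'] at h1' h2'
  obtain ⟨k1, k2, k3⟩ := hw T' τ (by linarith) hτ h1' h2' (by
    intro w hw0 hw1
    rw [abs_le] at hw1
    exact hz w hw0 (by linarith) (by linarith)) σ hσ0 hσ1
  rw [← hL'] at k1 k2 k3
  have m1 := hHm T h (by linarith) (by linarith)
  have m2 := hHm (T + h) (-h) (by linarith) (by linarith)
  rw [← hT', abs_neg, hT', add_neg_cancel_right, ← hT'] at m2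
  rw [← hT'] at m1
  have hH0 : 0 ≤ ‖HH (I * T)‖ := norm_nonneg _
  have hH1 : 0 ≤ ‖HH (I * T')‖ := norm_nonneg _
  have q1 : |τ * (L' ^ 2 - L ^ 2)| ≤ X := by
    have e : τ * (L' ^ 2 - L ^ 2) = (L' - L) * (τ * (L' + L)) := by ring
    have hL'0 : 0 < L' := by linarith only [hOn.1, hO2]
    rw [e, abs_mul, abs_of_pos (by positivity : 0 < τ * (L' + L))]
    have a1 : |L' - L| ≤ 1 / 2 := abs_le.2 ⟨by linarith only [hOn.1], by linarith only [hOn.2]⟩
    have a2 : τ * (L' + L) ≤ 2 * X := by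
      have : τ * (L' + L) ≤ τ * (2 * L + 1) := mul_le_mul_of_nonneg_left (by linarith only [hOn.2]) hτ.le
      linarith only [this, hτX, hτ1, hm, hX]
    calc |L' - L| * (τ * (L' + L)) ≤ 1 / 2 * (2 * X) := by
          apply mul_le_mul a1 a2 (by positivity) (by norm_num)
      _ = X := by ring
  rw [abs_le] at q1
  have hσp : 0 ≤ σ := by linarith only [hσ0, hε, hη0]
  have q2 : ε * L' ≤ ε * (L + 1 / 2) := mul_le_mul_of_nonneg_left (by linarith only [hOn.2]) hε.le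
  have q3 : (L' - L) * σ ≤ 1 / 2 * σ := mul_le_mul_of_nonneg_right hOn.2 hσp
  have q4 : -(1 / 2) * σ ≤ (L' - L) * σ := mul_le_mul_of_nonneg_right hOn.1 hσp
  refine ⟨?_, ?_, ?_⟩
  · have e : logDeriv (XT τ) (σ + I * T') - (L : ℂ) = (logDeriv (XT τ) (σ + I * T') - (L' : ℂ)) +
        ((L' - L : ℝ) : ℂ) := by push_cast; ring
    rw [e]
    refine (norm_add_le _ _).trans ?_
    have e2 : ‖((L' - L : ℝ) : ℂ)‖ ≤ 1 / 2 := by
      rw [Complex.norm_real, Real.norm_eq_abs, abs_le]; exact ⟨by linarith only [hOn.1], by linarith only [hOn.2]⟩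
    linarith only [k1, e2, q2, hε4]
  · refine le_trans ?_ k2
    calc Real.exp (L * σ + τ * L ^ 2 - (X + 3) - ε * L - |h|) * ‖HH (I * T)‖
        ≤ Real.exp (L * σ + τ * L ^ 2 - (X + 3) - ε * L - |h|) * (Real.exp |h| * ‖HH (I * T')‖) :=
          mul_le_mul_of_nonneg_left m2 (Real.exp_pos _).le
      _ = Real.exp (L * σ + τ * L ^ 2 - (X + 3) - ε * L) * ‖HH (I * T')‖ := by
          rw [← mul_assoc, ← Real.exp_add]
          congr 2
          ring
      _ ≤ _ := by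
          apply mul_le_mul_of_nonneg_right _ hH1
          apply Real.exp_le_exp.2
          linarith only [q1.1, q2, q4, hσ1, hε4, hε]
  · refine k3.trans ?_
    calc Real.exp (L' * (σ + τ * L' + ε)) * ‖HH (I * T')‖
        ≤ Real.exp (L * σ + τ * L ^ 2 + (X + 3) + ε * L) * (Real.exp |h| * ‖HH (I * T)‖) := by
          apply mul_le_mul _ m1 hH1 (Real.exp_pos _).le
          apply Real.exp_le_exp.2
          linarith only [q1.2, q2, q3, hσ1, hε4, hε]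
      _ = _ := by
          rw [← mul_assoc, ← Real.exp_add]

/-- the local situation at the saddle -/
lemma lcbE {m η X ε θ g ρ s τ T x : ℝ} (hτ : 0 < τ) (hX : 0 < X) (hρ : ρ = g / 2) (hg : 0 < g) (hg1 : g ≤ 1 / 2)
    (h0 : 0 < 2 * τ * Om T) (h2 : 2 * τ * Om T ≤ X) (hL : 0 < Om T) (hs : s ^ 2 = 1 / (2 * τ)) (hθ : 0 < θ)
    (hε1 : ε ≤ θ / (2 * X)) (hε2 : ε ≤ g / 4) (hT : 400 ≤ T) (hθL : 1 ≤ θ / (2 * X) * Om T)
    (hη0 : 0 ≤ η) (hx1 : 2 * τ * Om T + η + g ≤ x) (hx2 : x ≤ 2)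
    (hz : ∀ w : ℂ, η < w.re → T / 2 - 10 ≤ w.im → w.im ≤ 2 * T → XT τ w ≠ 0)
    (hp : ∀ h : ℝ, |h| ≤ T / 2 → ∀ σ : ℝ, η + ε ≤ σ → σ ≤ 3 →
      ‖logDeriv (XT τ) (σ + I * ((T + h : ℝ) : ℂ)) - (Om T : ℂ)‖ ≤ ε * Om T + 1) :
    Lc ρ s θ (I * (Om T : ℂ)) (I * ((2 * τ * Om T : ℝ) : ℂ)) (FV τ ((x : ℂ) + I * T)) := by
  intro w hw
  rw [Metric.mem_ball, dist_eq_norm] at hw
  have hwr : |w.re| < ρ := by
    have := (Complex.abs_re_le_norm _).trans_lt hw
    simpa using this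
  have hwi : |w.im - 2 * τ * Om T| < ρ := by
    have := (Complex.abs_im_le_norm _).trans_lt hw
    simpa using this
  rw [abs_lt] at hwr hwi
  have e := pt_eq x T w.im w.re w rfl rfl
  have r1 : η + ε ≤ x - w.im := by linarith only [hwi.2, hx1, hρ, hε2, hg]
  have r2 : x - w.im ≤ 3 := by linarith only [hwi.1, hx2, h0, hρ, hg1]
  have hw2 : |w.re| ≤ T / 2 := by
    rw [abs_le]; constructor <;> linarith only [hwr.1, hwr.2, hρ, hg1, hT]
  have hk := hp w.re hw2 (x - w.im) r1 r2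
  refine ⟨(FV_deriv hτ.le _ w).differentiableAt, ?_, ?_⟩
  · unfold FV
    rw [e]
    apply hz
    · have : (((x - w.im : ℝ) : ℂ) + I * ((T + w.re : ℝ) : ℂ)).re = x - w.im := by simp
      rw [this]
      linarith only [hwi.2, hx1, hρ, hg]
    · have : (((x - w.im : ℝ) : ℂ) + I * ((T + w.re : ℝ) : ℂ)).im = T + w.re := by simp
      rw [this]
      linarith only [hwr.1, hρ, hg1, hT]
    · have : (((x - w.im : ℝ) : ℂ) + I * ((T + w.re : ℝ) : ℂ)).im = T + w.re := by simp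
      rw [this]
      linarith only [hwr.2, hρ, hg1, hT]
  · rw [FV_ld hτ.le, e, ← mul_sub, norm_mul, Complex.norm_I, one_mul]
    refine hk.trans ?_
    have a1 : ε * Om T ≤ θ / (2 * X) * Om T := mul_le_mul_of_nonneg_right hε1 hL.le
    have a2 : θ / (2 * X) * Om T + θ / (2 * X) * Om T ≤ θ * s ^ 2 := by
      rw [hs]
      have : θ / (2 * X) * Om T + θ / (2 * X) * Om T = θ * (Om T / X) := by field_simp; ring
      rw [this]
      apply mul_le_mul_of_nonneg_left _ hθ.le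
      rw [div_le_div_iff₀ hX (by positivity)]
      linarith only [h2]
    linarith only [a1, a2, hθL]

lemma bwdE (m X g η : ℝ) (hm : 0 < m) (hX : m ≤ X) (hg : 0 < g) (hg1 : g ≤ 1 / 2) (hη0 : 0 ≤ η) (hη1 : η ≤ 1 / 2) : ∃ T0 : ℝ, 400 ≤ T0 ∧
    ∀ T τ : ℝ, T0 ≤ T → 0 < τ → m ≤ 2 * τ * Om T → 2 * τ * Om T ≤ X →
      (∀ w : ℂ, η < w.re → T / 2 - 10 ≤ w.im → w.im ≤ 2 * T → XT τ w ≠ 0) →
      ∀ x : ℝ, 2 * τ * Om T + η + g ≤ x → x ≤ 2 → XX (x + I * T) ≠ 0 := by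
  have hXp : 0 < X := by linarith
  obtain ⟨ρ, hρ⟩ : ∃ ρ : ℝ, ρ = g / 2 := ⟨_, rfl⟩
  have hρ0 : 0 < ρ := by rw [hρ]; linarith
  have hρ1 : ρ ≤ 1 / 4 := by rw [hρ]; linarith
  obtain ⟨r0, hr0⟩ : ∃ r0 : ℝ, r0 = ρ / 10 := ⟨_, rfl⟩
  have hr00 : 0 < r0 := by rw [hr0]; positivity
  obtain ⟨κ, hκ⟩ : ∃ κ : ℝ, κ = r0 ^ 2 / (20 * X) := ⟨_, rfl⟩
  have hκ0 : 0 < κ := by rw [hκ]; positivity
  obtain ⟨θ, hθ⟩ : ∃ θ : ℝ, θ = min (ρ / 100000) (κ * m / 2) := ⟨_, rfl⟩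
  have hθ0 : 0 < θ := by rw [hθ]; exact lt_min (by positivity) (by positivity)
  have hθ1 : θ ≤ ρ / 100000 := by rw [hθ]; exact min_le_left _ _
  have hθ2 : θ ≤ κ * m / 2 := by rw [hθ]; exact min_le_right _ _
  have hθ3 : θ ≤ 1 := by linarith
  have hθ4 : θ ^ 2 / (2 * m) ≤ κ / 4 := by
    rw [div_le_iff₀ (by positivity)]
    have : θ * θ ≤ 1 * (κ * m / 2) := mul_le_mul hθ3 hθ2 hθ0.le (by norm_num)
    linarith only [this]
  obtain ⟨ε, hε⟩ : ∃ ε : ℝ, ε = min (min (κ / 4) (θ / (2 * X))) (g / 4) := ⟨_, rfl⟩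
  have hε0 : 0 < ε := by rw [hε]; exact lt_min (lt_min (by positivity) (by positivity)) (by linarith)
  have hε1 : ε ≤ κ / 4 := by rw [hε]; exact (min_le_left _ _).trans (min_le_left _ _)
  have hε2 : ε ≤ θ / (2 * X) := by rw [hε]; exact (min_le_left _ _).trans (min_le_right _ _)
  have hε3 : ε ≤ g / 4 := by rw [hε]; exact min_le_right _ _
  obtain ⟨T1, hT1, hpw⟩ := pwE m X ε η hm hX hε0 (by linarith) hη0 hη1
  obtain ⟨C, hC, hbd⟩ := XT_bd
  obtain ⟨K, T2, hK, hT2, hst⟩ := Pool.Agent.H986R2.DBN.stir2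
  obtain ⟨T6, hT6⟩ : ∃ T6 : ℝ, ∀ t : ℝ, T6 ≤ t → 2 * Om t / m ≤ Real.exp (κ * Om t) := by
    have h1 : Tendsto (fun x : ℝ => Real.exp (κ * x) / x) atTop atTop := by
      have := tendsto_exp_mul_div_rpow_atTop 1 κ hκ0
      simpa using this
    have h2 := (h1.comp Om_tendsto).eventually_ge_atTop (2 / m)
    obtain ⟨t3, ht3⟩ := Filter.eventually_atTop.1 (h2.and (Om_tendsto.eventually_gt_atTop 0))
    refine ⟨t3, fun t ht => ?_⟩
    obtain ⟨h3, h4⟩ := ht3 t ht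
    simp only [Function.comp] at h3
    rw [le_div_iff₀ h4] at h3
    calc 2 * Om t / m = 2 / m * Om t := by ring
      _ ≤ _ := h3
  obtain ⟨T4, hT4, hO⟩ := Om_large (max (max (max (4 * X + 1) (X * (30000 ^ 2 + 25 / ρ ^ 2)))
    (max (4 / κ * (X + 4)) (2 * X / θ))) (max (4 * X * (1 + 1 / r0)) (2 * X * (1 + C + 6 * κ + 2 * K))))
  refine ⟨max (max T1 T2) (max T4 T6), hT4.trans ((le_max_left _ _).trans (le_max_right _ _)), ?_⟩
  intro T τ hT hτ h1 h2 hz x hx1 hx2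
  have g1 : T1 ≤ T := ((le_max_left _ _).trans (le_max_left _ _)).trans hT
  have g2 : T2 ≤ T := ((le_max_right _ _).trans (le_max_left _ _)).trans hT
  have g4 : T4 ≤ T := ((le_max_left _ _).trans (le_max_right _ _)).trans hT
  have g6 : T6 ≤ T := ((le_max_right _ _).trans (le_max_right _ _)).trans hT
  have hT400 : 400 ≤ T := hT4.trans g4
  have hOm := hO T g4
  have hOm1 : 4 * X + 1 ≤ Om T :=
    (((le_max_left _ _).trans (le_max_left _ _)).trans (le_max_left _ _)).trans hOm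
  have hOm2 : X * (30000 ^ 2 + 25 / ρ ^ 2) ≤ Om T :=
    (((le_max_right _ _).trans (le_max_left _ _)).trans (le_max_left _ _)).trans hOm
  have hOm3 : 4 / κ * (X + 4) ≤ Om T :=
    (((le_max_left _ _).trans (le_max_right _ _)).trans (le_max_left _ _)).trans hOm
  have hOm4 : 2 * X / θ ≤ Om T :=
    (((le_max_right _ _).trans (le_max_right _ _)).trans (le_max_left _ _)).trans hOm
  have hOm5 : 4 * X * (1 + 1 / r0) ≤ Om T := ((le_max_left _ _).trans (le_max_right _ _)).trans hOm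
  have hOm6 : 2 * X * (1 + C + 6 * κ + 2 * K) ≤ Om T := ((le_max_right _ _).trans (le_max_right _ _)).trans hOm
  clear hOm
  have hgr := hT6 T g6
  have hLT : Om T ≤ T := by
    have := Real.log_le_sub_one_of_pos (show 0 < T by linarith)
    unfold Om
    linarith
  have hpw' := hpw T τ g1 hτ h1 h2 hz
  have hH1 := (hst T g2).2.2.1
  clear hpw hst hO hT6
  have hLp : 0 < Om T := by linarith only [hOm1, hXp]
  have h0 : 0 < 2 * τ * Om T := by positivity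
  have hτ8 : τ ≤ 1 / 8 := by
    by_contra hcon
    push Not at hcon
    have : 1 / 8 * Om T ≤ τ * Om T := by gcongr
    linarith only [this, h2, hOm1, hXp]
  have hOm3' : X + 4 ≤ κ / 4 * Om T := by
    have := mul_le_mul_of_nonneg_left hOm3 (by positivity : 0 ≤ κ / 4)
    refine le_trans (le_of_eq ?_) this
    field_simp
  have hOm4' : 1 ≤ θ / (2 * X) * Om T := by
    have := mul_le_mul_of_nonneg_left hOm4 (by positivity : 0 ≤ θ / (2 * X))
    refine le_trans (le_of_eq ?_) this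
    field_simp
  have hX8 : Om T / (4 * X) ≤ 1 / (8 * τ) := by
    rw [div_le_div_iff₀ (by positivity) (by positivity)]; linarith only [h2]
  have hOm5' : 1 + 1 / r0 ≤ 1 / (8 * τ) := by
    refine le_trans ?_ hX8
    rw [le_div_iff₀ (by positivity)]; linarith only [hOm5]
  have hOm6' : 1 + C + 6 * κ + 2 * K ≤ 1 / (4 * τ) := by
    have e : 1 / (4 * τ) = 2 * (1 / (8 * τ)) := by field_simp; norm_num
    rw [e]
    have h3 : (1 + C + 6 * κ + 2 * K) / 2 ≤ Om T / (4 * X) := by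
      rw [div_le_div_iff₀ (by norm_num) (by positivity)]; linarith only [hOm6]
    linarith only [h3, hX8]
  obtain ⟨s, hs⟩ : ∃ s : ℝ, s = Real.sqrt (1 / (2 * τ)) := ⟨_, rfl⟩
  have hs2 : s ^ 2 = 1 / (2 * τ) := by rw [hs]; exact Real.sq_sqrt (by positivity)
  have hs0 : 0 ≤ s := by rw [hs]; exact Real.sqrt_nonneg _
  have hsL : Om T / X ≤ s ^ 2 := by
    rw [hs2, div_le_div_iff₀ hXp (by positivity)]; linarith only [h2]
  have hsL2 : s ^ 2 ≤ Om T / m := by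
    rw [hs2, div_le_div_iff₀ (by positivity) hm]; linarith only [h1]
  have hs3 : 30000 ^ 2 + 25 / ρ ^ 2 ≤ s ^ 2 := by
    refine le_trans ?_ hsL
    rw [le_div_iff₀ hXp]; linarith only [hOm2]
  have hs4 : 30000 ≤ s := by
    have h0 : (0 : ℝ) ≤ 25 / ρ ^ 2 := by positivity
    exact (sq_le_sq₀ (by norm_num) hs0).1 (by linarith only [h0, hs3])
  have hs5 : 5 / ρ ≤ s := by
    refine (sq_le_sq₀ (by positivity) hs0).1 ?_
    rw [div_pow]
    have e : (5 : ℝ) ^ 2 = 25 := by norm_num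
    rw [e]
    linarith only [hs3]
  have hs1 : 1 ≤ s := by linarith only [hs4]
  obtain ⟨z, hzd⟩ : ∃ z : ℂ, z = (x : ℂ) + I * T := ⟨_, rfl⟩
  have hLc := lcbE (m := m) hτ hXp hρ hg hg1 h0 h2 hLp hs2 hθ0 hε2 hε3 hT400 hOm4' hη0 hx1 hx2 hz
    (fun h hh σ q1 q2 => (hpw' h hh σ q1 q2).1)
  rw [← hzd] at hLc ⊢
  obtain ⟨w0, hw0, -, hw2⟩ := sad hρ0 (by linarith only [hρ1]) hs4 hs5 hθ0 hθ1 hLc
  have hzz : I * ((2 * τ * Om T : ℝ) : ℂ) - I * (Om T : ℂ) / (s : ℂ) ^ 2 = 0 := by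
    have e1 : ((s : ℂ)) ^ 2 = ((1 / (2 * τ) : ℝ) : ℂ) := by rw [← hs2]; push_cast; ring
    rw [e1]
    have : (τ : ℂ) ≠ 0 := by exact_mod_cast hτ.ne'
    push_cast
    field_simp
    ring
  rw [hzz] at hw2
  obtain ⟨a, ha⟩ : ∃ a : ℝ, a = w0.re := ⟨_, rfl⟩
  obtain ⟨b, hb⟩ : ∃ b : ℝ, b = w0.im := ⟨_, rfl⟩
  have ha1 : |a| ≤ θ := by
    have := (Complex.abs_re_le_norm _).trans hw0
    rw [ha]
    simpa using this
  have hb1 : |b - 2 * τ * Om T| ≤ θ := by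
    have := (Complex.abs_im_le_norm _).trans hw0
    rw [hb]
    simpa using this
  have ha1' := abs_le.1 ha1
  have hb1' := abs_le.1 hb1
  have r1 : η + ε ≤ x - b := by linarith only [hb1'.2, hx1, hε3, hg, hθ1, hρ]
  have r2 : x - b ≤ 3 := by linarith only [hb1'.1, hx2, h0, hθ3]
  have hHp : 0 < ‖HH (I * T)‖ := lt_of_lt_of_le (Real.exp_pos _) hH1
  obtain ⟨E, hE⟩ : ∃ E : ℝ, E = b ^ 2 / (4 * τ) + Om T * (x - b) + τ * Om T ^ 2 := ⟨_, rfl⟩
  -- the saddle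
  have hmid : Real.exp (E - κ * Om T) * ‖HH (I * T)‖ ≤ ‖Q (FV τ z) s 0 w0‖ := by
    rw [Q_norm hτ hs2, hE]
    have e := pt_eq x T b a w0 ha.symm hb.symm
    rw [← hzd] at e
    unfold FV
    rw [e, Complex.zero_re, Complex.zero_im, sub_zero, sub_zero, ← ha, ← hb]
    exact mid hτ hm h1 hLp ha1 hθ4 hθ3 hε1 hOm3' hκ0 hHp.le
      (hpw' a (by linarith only [ha1, hθ3, hT400]) (x - b) r1 r2).2.1
  -- away from the saddle
  have hout : ∀ y : ℝ, ρ / 5 ≤ |y| → ‖Q (FV τ z) s 0 (w0 + y)‖ ≤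
      Real.exp (E - 3 * κ * Om T) * ‖HH (I * T)‖ * Real.exp (-(a + y) ^ 2) := by
    intro y hy
    have hre : (w0 + (y : ℂ)).re = a + y := by rw [Complex.add_re, Complex.ofReal_re, ha]
    have him : (w0 + (y : ℂ)).im = b := by rw [Complex.add_im, Complex.ofReal_im, hb, add_zero]
    rw [Q_norm hτ hs2, hE]
    have e := pt_eq x T b (a + y) (w0 + y) hre him
    rw [← hzd] at e
    unfold FV
    rw [e, Complex.zero_re, Complex.zero_im, sub_zero, sub_zero, hre, him]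
    have hyr : r0 ≤ |a + y| := by
      have h3 : |y| ≤ |a + y| + |a| := by
        have := abs_sub (a + y) a
        rwa [add_sub_cancel_left] at this
      linarith only [h3, ha1, hθ1, hr0, hy, hρ0]
    rcases le_or_gt |a + y| (T / 2) with hc | hc
    · exact out_near (m := m) hτ hXp h2 hLp hr00 hyr hκ hε1 (by linarith only [hOm3']) hOm5' hHp.le
        (hpw' (a + y) hc (x - b) r1 r2).2.2
    · refine out_far (X := X) hτ (by linarith only [hT400]) hc.le hLp hLT hC hκ0 (by linarith only [hK])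
        (by linarith only [r1, hε0, hη0]) hOm6' hH1 (hbd τ _ hτ.le hτ8 ?_)
      have : (((x - b : ℝ) : ℂ) + I * ((T + (a + y) : ℝ) : ℂ)).re = x - b := by simp
      rw [this, abs_of_nonneg (by linarith only [r1, hε0, hη0])]
      exact r2
  obtain ⟨hint, hval⟩ := inv_heat hτ z w0
  intro hzero
  rw [hzero, mul_zero] at hval
  have hfun : (fun y : ℝ => cexp (-((w0 + y) ^ 2 / (4 * τ))) * XT τ (z + I * (w0 + y))) =
      fun y : ℝ => Q (FV τ z) s 0 (w0 + y) := by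
    funext y
    rw [Q_FV hτ hs2]
  rw [hfun] at hint hval
  have hwh := whole hint (by positivity : 0 < ρ / 5) (by positivity :
    0 ≤ Real.exp (E - 3 * κ * Om T) * ‖HH (I * T)‖) hout
  rw [hval, norm_zero, zero_add] at hwh
  have hsle : Real.exp (-(κ * Om T)) ≤ 1 / 2 / s := by
    rw [Real.exp_neg, ← one_div, div_div]
    apply one_div_le_one_div_of_le (by positivity)
    have : s * 1 ≤ s * s := mul_le_mul_of_nonneg_left hs1 hs0
    have h3 : 2 * s ≤ 2 * Om T / m := by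
      have e : 2 * Om T / m = 2 * (Om T / m) := by ring
      rw [e]
      linarith only [this, hsL2]
    exact h3.trans hgr
  have hfin : Real.exp (-(κ * Om T)) * (Real.exp (E - κ * Om T) * ‖HH (I * T)‖) ≤
      2 * (Real.exp (E - 3 * κ * Om T) * ‖HH (I * T)‖) := by
    refine le_trans ?_ (hw2.trans hwh)
    exact mul_le_mul hsle hmid (by positivity) (by positivity)
  have e1 : Real.exp (-(κ * Om T)) * (Real.exp (E - κ * Om T) * ‖HH (I * T)‖) =
      Real.exp (κ * Om T) * (Real.exp (E - 3 * κ * Om T) * ‖HH (I * T)‖) := by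
    rw [← mul_assoc, ← mul_assoc, ← Real.exp_add, ← Real.exp_add]
    congr 2
    ring
  rw [e1] at hfin
  have h5 : Real.exp (κ * Om T) ≤ 2 :=
    le_of_mul_le_mul_right hfin (by positivity)
  have h6 := Real.add_one_le_exp (κ * Om T)
  linarith only [h5, h6, hOm3', hXp]


end Pool.Agent.W186.SN
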