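import Pool.Agent.W186.SN.VB
import Pool.Agent.W186.HZ.Fwd

set_option autoImplicit false

/-!
# Unconditional narrowing of the strip
-/

namespace Pool.Agent.W186.SN

open Complex Filter Topology MeasureTheory Set
open Pool.Agent.H24R2.JP (XX HH Om)
open Pool.Agent.H986R2.DBN (JT XT)
open Pool.Agent.W186.HZ

lemma gap_id {x σ r : ℝ} (hx : 0 < x) (p : ℝ) : σ + x / 2 - (p - (r - σ) ^ 2 / (2 * x)) =
    (σ + x - r) ^ 2 / (2 * x) - (p - r) := by
  field_simp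
  ring

lemma gapV {δ d e0 m X x σ r a1 κ0 : ℝ} (hδ : 0 < δ) (hd : 2 * d ≤ δ) (hm : 0 < m)
    (hm1 : m ≤ e0 / 4) (hx1 : m ≤ x) (hx2 : x ≤ X) (hσ : 1 / 2 - (1 - δ) * m ≤ σ) (hδ1 : δ < 1)
    (ha : 0 ≤ a1) (hr : a1 ≤ |r - (σ + x)|) (k1 : κ0 ≤ a1 ^ 2 / (2 * X)) (k2 : κ0 ≤ δ ^ 2 * m / 2)
    (k3 : κ0 ≤ e0 ^ 2 / (4 * X)) :
    phv d e0 r - (r - σ) ^ 2 / (2 * x) ≤ σ + x / 2 - κ0 := by
  have hx : 0 < x := by linarith
  have hX : 0 < X := by linarith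
  have key := gap_id (σ := σ) (r := r) hx (phv d e0 r)
  suffices h : κ0 ≤ (σ + x - r) ^ 2 / (2 * x) - (phv d e0 r - r) by linarith
  obtain ⟨D, hD⟩ : ∃ D : ℝ, D = σ + x - 1 / 2 := ⟨_, rfl⟩
  have hD1 : δ * x ≤ D := by
    rw [hD]
    have : (1 - δ) * m ≤ (1 - δ) * x := mul_le_mul_of_nonneg_left hx1 (by linarith)
    linarith
  have hD2 : x - m ≤ D := by
    rw [hD]
    have : 0 ≤ δ * m := by positivity
    linarith
  have hD0 : 0 < D := lt_of_lt_of_le (by positivity) hD1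
  unfold phv
  split_ifs with c1 c2
  · rw [sub_self, sub_zero]
    refine k1.trans ?_
    have h1 : a1 ^ 2 ≤ (σ + x - r) ^ 2 := by
      rw [← sq_abs (σ + x - r), abs_sub_comm]
      exact pow_le_pow_left₀ ha hr 2
    exact div_le_div₀ (sq_nonneg _) h1 (by positivity) (by linarith)
  · push Not at c1
    obtain ⟨e, he⟩ : ∃ e : ℝ, e = 1 / 2 - r := ⟨_, rfl⟩
    have he0 : 0 < e := by rw [he]; linarith
    have e1 : σ + x - r = D + e := by rw [hD, he]; ring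
    rw [e1, ← he]
    have h1 : δ * e + δ ^ 2 * m / 2 ≤ (D + e) ^ 2 / (2 * x) := by
      rw [le_div_iff₀ (by positivity)]
      have a1 : δ * x * (2 * e) ≤ D * (2 * e) := mul_le_mul_of_nonneg_right hD1 (by linarith)
      have a2 : δ * x * (δ * m) ≤ D * D := by
        apply mul_le_mul hD1 _ (by positivity) hD0.le
        refine le_trans ?_ hD1
        exact mul_le_mul_of_nonneg_left hx1 hδ.le
      nlinarith only [a1, a2, sq_nonneg e]
    have h2 : 2 * d * e ≤ δ * e := mul_le_mul_of_nonneg_right hd he0.le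
    linarith
  · push Not at c1 c2
    obtain ⟨e, he⟩ : ∃ e : ℝ, e = 1 / 2 - r := ⟨_, rfl⟩
    have he0 : e0 < e := by rw [he]; linarith
    have he00 : 0 < e0 := by linarith
    have e1 : σ + x - r = D + e := by rw [hD, he]; ring
    rw [e1, ← he]
    have h1 : e + e0 ^ 2 / (4 * X) ≤ (D + e) ^ 2 / (2 * x) := by
      rw [le_div_iff₀ (by positivity)]
      have a1 : e0 ^ 2 / (4 * X) * (2 * x) ≤ e0 ^ 2 / 2 := by
        have : e0 ^ 2 / (4 * X) * (2 * x) = e0 ^ 2 / 2 * (x / X) := by field_simp; ring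
        rw [this]
        have h3 : x / X ≤ 1 := (div_le_one hX).2 hx2
        have h4 : 0 ≤ e0 ^ 2 / 2 := by positivity
        nlinarith only [h3, h4]
      have a2 : e * (2 * x) ≤ e * (2 * (D + m)) := mul_le_mul_of_nonneg_left (by linarith) (by linarith)
      have a3 : e * (2 * m) ≤ e * (e / 2) := mul_le_mul_of_nonneg_left (by linarith) (by linarith)
      have a4 : e0 ^ 2 ≤ e ^ 2 := pow_le_pow_left₀ he00.le he0.le 2
      nlinarith only [a1, a2, a3, a4, sq_nonneg D]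
    linarith

theorem fwdV (δ : ℝ) (hδ : 0 < δ) (hδ1 : δ < 1) : ∃ m0 : ℝ, 0 < m0 ∧ ∀ m : ℝ, 0 < m → m ≤ m0 →
    ∀ X : ℝ, m ≤ X → ∃ T0 : ℝ, 400 ≤ T0 ∧ ∀ T τ : ℝ, T0 ≤ T → 0 < τ → m ≤ 2 * τ * Om T → 2 * τ * Om T ≤ X →
      ∀ σ : ℝ, 1 / 2 - (1 - δ) * m ≤ σ → σ ≤ 1 / 2 → XT τ (σ + I * T) ≠ 0 := by
  obtain ⟨e0, he0, he1, hub⟩ := ubv (δ / 2) (by linarith) (by linarith)
  refine ⟨min (e0 / 4) (1 / 8), lt_min (by linarith) (by norm_num), ?_⟩
  intro m hm hm0 X hX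
  have hm1 : m ≤ e0 / 4 := hm0.trans (min_le_left _ _)
  have hm2 : m ≤ 1 / 8 := hm0.trans (min_le_right _ _)
  have hXp : 0 < X := by linarith
  obtain ⟨g, hg⟩ : ∃ g : ℝ, g = δ * m := ⟨_, rfl⟩
  have hg0 : 0 < g := by rw [hg]; positivity
  obtain ⟨a1, ha1⟩ : ∃ a1 : ℝ, a1 = min (g / 2) (1 / 2) / 5 * (3 / 4) := ⟨_, rfl⟩
  have ha10 : 0 < a1 := by
    rw [ha1]
    have : 0 < min (g / 2) (1 / 2) := lt_min (by linarith) (by norm_num)
    positivity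
  obtain ⟨κ, hκ⟩ : ∃ κ : ℝ, κ = min (min (a1 ^ 2 / (2 * X)) (δ ^ 2 * m / 2)) (min (e0 ^ 2 / (4 * X)) 1) := ⟨_, rfl⟩
  have hκ0 : 0 < κ := by
    rw [hκ]
    exact lt_min (lt_min (by positivity) (by positivity)) (lt_min (by positivity) one_pos)
  have k1 : κ ≤ a1 ^ 2 / (2 * X) := by rw [hκ]; exact (min_le_left _ _).trans (min_le_left _ _)
  have k2 : κ ≤ δ ^ 2 * m / 2 := by rw [hκ]; exact (min_le_left _ _).trans (min_le_right _ _)
  have k3 : κ ≤ e0 ^ 2 / (4 * X) := by rw [hκ]; exact (min_le_right _ _).trans (min_le_left _ _)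
  have k4 : κ ≤ 1 := by rw [hκ]; exact (min_le_right _ _).trans (min_le_right _ _)
  obtain ⟨δ1, hδ1d⟩ : ∃ δ1 : ℝ, δ1 = min (1 / 8) (1 / (64 * X)) := ⟨_, rfl⟩
  have hδ10 : 0 < δ1 := by rw [hδ1d]; exact lt_min (by norm_num) (by positivity)
  have hδ11 : δ1 ≤ 1 / 8 := by rw [hδ1d]; exact min_le_left _ _
  have hδ12 : δ1 ≤ 1 / (64 * X) := by rw [hδ1d]; exact min_le_right _ _
  obtain ⟨T1, hT1, hl⟩ := jlg (y := 1 / 2) (by norm_num) ct_half hub m X 1 g κ hm hX (by norm_num) hg0 hκ0 k4 δ1 hδ10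
  obtain ⟨T2, hT2, hu⟩ := ju (y := 1 / 2) (by norm_num) le_rfl ct_half m X 1 δ1 hm hX (by norm_num) hδ10
  obtain ⟨T4, hT4, hO⟩ := Om_large 1
  refine ⟨max (max T1 T2) T4, hT4.trans (le_max_right _ _), ?_⟩
  intro T τ hT hτ h1 h2 σ hσ0 hσ1 hz
  have g1 : T1 ≤ T := ((le_max_left _ _).trans (le_max_left _ _)).trans hT
  have g2 : T2 ≤ T := ((le_max_right _ _).trans (le_max_left _ _)).trans hT
  have g4 : T4 ≤ T := (le_max_right _ _).trans hT
  have hOm := hO T g4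
  have hTp : 0 < T := by linarith
  have heq := Pool.Agent.H986R2.DBN.Hnz.norm_JT_eq Pool.Agent.H986R2.DBN.heat Pool.Agent.H24R2.JP.b1 τ T σ hτ hz
  have hδm : 0 < δ * m := by positivity
  have hσ2 : 3 / 8 ≤ σ := by linarith
  have q1 := hl T τ g1 hτ h1 h2 σ (by linarith) (by linarith) (by linarith) (by
    intro r hr0 hr1
    rw [← ha1] at hr1
    exact gapV (X := X) hδ (by linarith) hm hm1 h1 h2 hσ0 hδ1 ha10.le hr1 k1 k2 k3)
  have h2τ : 0 < 2 * τ := by positivity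
  have e1 : 2 * τ * (((σ / (2 * τ) : ℝ) : ℂ)).re = σ := by
    rw [Complex.ofReal_re]; field_simp
  have q2 := hu T τ g2 hτ h1 h2 (-((σ / (2 * τ) : ℝ) : ℂ)) (by
      rw [Complex.neg_re, mul_neg, e1]; linarith)
  rw [heq] at q1
  have hHp : 0 < ‖HH (I * T)‖ := by
    have h0 : HH (I * T) ≠ 0 := by
      apply Pool.Agent.H24R2.JP.StirAux.HH_ne
      simpa using hTp
    exact norm_pos_iff.2 h0
  have a3 := le_of_mul_le_mul_right (q1.trans q2) hHp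
  obtain ⟨L, hL⟩ : ∃ L : ℝ, L = Om T := ⟨_, rfl⟩
  rw [← hL] at a3 h1 h2 hOm
  rw [Real.exp_le_exp, Complex.neg_re, Complex.ofReal_re] at a3
  obtain ⟨α, hα⟩ : ∃ α : ℝ, α = σ / (2 * τ) := ⟨_, rfl⟩
  rw [← hα] at a3
  have hα0 : 0 < α := by rw [hα]; positivity
  have hτα : 2 * τ * α = σ := by rw [hα]; field_simp
  have hLp : 0 < L := by linarith
  rw [max_eq_right (by linarith only [hα0] : -α ≤ 0), zero_mul, add_zero] at a3
  rcases max_cases (τ * (L + -α) ^ 2) (L * (1 / 2)) with ⟨hmx, -⟩ | ⟨hmx, -⟩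
  · rw [hmx] at a3
    have a4 : τ * (L + α) ^ 2 - τ * (L + -α) ^ 2 = 2 * (L * σ) := by
      rw [← hτα]; ring
    have a5 : L * (3 / 8) ≤ L * σ := mul_le_mul_of_nonneg_left hσ2 hLp.le
    have a6 : δ1 * L ≤ 1 / 8 * L := mul_le_mul_of_nonneg_right hδ11 hLp.le
    linarith only [a3, a4, a5, a6, hLp]
  · rw [hmx] at a3
    obtain ⟨x, hx⟩ : ∃ x : ℝ, x = 2 * τ * L := ⟨_, rfl⟩
    rw [← hx] at h1 h2
    have hxp : 0 < x := by linarith only [hm, h1]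
    have a4 : τ * (L + α) ^ 2 = L * ((σ + x) ^ 2 / (2 * x)) := by
      have : α = σ / (2 * τ) := hα
      rw [this, hx]
      field_simp
      ring
    have a5 : 1 / 2 + 1 / (16 * X) ≤ (σ + x) ^ 2 / (2 * x) := by
      have b1 : x + 1 / 8 ≤ (σ + x) ^ 2 := by
        have b2 : (3 / 8 + x) ^ 2 ≤ (σ + x) ^ 2 := pow_le_pow_left₀ (by linarith) (by linarith) 2
        nlinarith only [b2, sq_nonneg (x - 1 / 8)]
      have b3 : 1 / (16 * X) ≤ 1 / (16 * x) := one_div_le_one_div_of_le (by positivity) (by linarith)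
      have b4 : (x + 1 / 8) / (2 * x) = 1 / 2 + 1 / (16 * x) := by field_simp; ring
      have b5 : (x + 1 / 8) / (2 * x) ≤ (σ + x) ^ 2 / (2 * x) := div_le_div_of_nonneg_right b1 (by positivity)
      linarith
    have a6 := mul_le_mul_of_nonneg_left a5 hLp.le
    rw [a4] at a3
    have a7 : δ1 * L ≤ 1 / (64 * X) * L := mul_le_mul_of_nonneg_right hδ12 hLp.le
    have a8 : 1 / (16 * X) = 4 * (1 / (64 * X)) := by field_simp; norm_num
    rw [a8] at a6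
    have a9 : 0 < 1 / (64 * X) * L := by positivity
    linarith only [a3, a6, a7, a9]

end Pool.Agent.W186.SN
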