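import Pool.Agent.W186.SN.JG

set_option autoImplicit false

/-!
# Lower bound for `JT`: general majorant
-/

namespace Pool.Agent.W186.SN

open Complex Filter Topology MeasureTheory Set
open Pool.Agent.H24R2.JP (XX HH Om)
open Pool.Agent.H986R2.DBN (JT XT)
open Pool.Agent.W186.HZ

lemma jlg {y : ℝ} (hy0 : 0 ≤ y) (h : CT y) {φ : ℝ → ℝ} (hφ : UB φ) (m X C g κ : ℝ) (hm : 0 < m) (hX : m ≤ X)
    (hC : 0 ≤ C) (hg : 0 < g) (hκ0 : 0 < κ) (hκ3 : κ ≤ 1) (δ : ℝ) (hδ : 0 < δ) : ∃ T0 : ℝ, 400 ≤ T0 ∧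
    ∀ T τ : ℝ, T0 ≤ T → 0 < τ → m ≤ 2 * τ * Om T → 2 * τ * Om T ≤ X → ∀ σ : ℝ, 0 ≤ σ → σ ≤ C →
      y + g ≤ σ + 2 * τ * Om T →
      (∀ r : ℝ, 0 ≤ r → min (g / 2) (1 / 2) / 5 * (3 / 4) ≤ |r - (σ + 2 * τ * Om T)| →
        φ r - (r - σ) ^ 2 / (2 * (2 * τ * Om T)) ≤ σ + 2 * τ * Om T / 2 - κ) →
      Real.exp (τ * (Om T + σ / (2 * τ)) ^ 2 - δ * Om T) * ‖HH (I * T)‖ ≤ ‖JT τ T ((σ / (2 * τ) : ℝ) : ℂ)‖ := by
  have hXp : 0 < X := by linarith
  -- constants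
  obtain ⟨ρ, hρ⟩ : ∃ ρ : ℝ, ρ = min (g / 2) (1 / 2) := ⟨_, rfl⟩
  have hρ0 : 0 < ρ := by rw [hρ]; exact lt_min (by linarith) (by norm_num)
  have hρ1 : ρ ≤ g / 2 := by rw [hρ]; exact min_le_left _ _
  have hρ2 : ρ ≤ 1 / 2 := by rw [hρ]; exact min_le_right _ _
  obtain ⟨a0, ha0⟩ : ∃ a0 : ℝ, a0 = ρ / 5 := ⟨_, rfl⟩
  have ha00 : 0 < a0 := by rw [ha0]; positivity
  obtain ⟨c, hc⟩ : ∃ c : ℝ, c = min (1 / 4) (κ * m / 8) := ⟨_, rfl⟩
  have hc0 : 0 < c := by rw [hc]; exact lt_min (by norm_num) (by positivity)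
  have hc1 : c ≤ 1 / 4 := by rw [hc]; exact min_le_left _ _
  have hc2 : c ≤ κ * m / 8 := by rw [hc]; exact min_le_right _ _
  obtain ⟨ε1, hε1⟩ : ∃ ε1 : ℝ, ε1 = min (min (δ / 8) (κ / 16)) (g / 2) := ⟨_, rfl⟩
  have hε10 : 0 < ε1 := by rw [hε1]; exact lt_min (lt_min (by linarith) (by linarith)) (by linarith)
  have hε11 : ε1 ≤ δ / 8 := by rw [hε1]; exact (min_le_left _ _).trans (min_le_left _ _)
  have hε12 : ε1 ≤ κ / 16 := by rw [hε1]; exact (min_le_left _ _).trans (min_le_right _ _)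
  have hε13 : ε1 ≤ g / 2 := by rw [hε1]; exact min_le_right _ _
  obtain ⟨θ, hθ⟩ : ∃ θ : ℝ, θ = min (min (ρ / 100000) c) (min (ε1 / 3) (2 * m)) := ⟨_, rfl⟩
  have hθ0 : 0 < θ := by
    rw [hθ]; exact lt_min (lt_min (by positivity) hc0) (lt_min (by linarith) (by linarith))
  have hθ1 : θ ≤ ρ / 100000 := by rw [hθ]; exact (min_le_left _ _).trans (min_le_left _ _)
  have hθ2 : θ ≤ c := by rw [hθ]; exact (min_le_left _ _).trans (min_le_right _ _)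
  have hθ3 : θ ≤ ε1 / 3 := by rw [hθ]; exact (min_le_right _ _).trans (min_le_left _ _)
  have hθ4 : θ ≤ 2 * m := by rw [hθ]; exact (min_le_right _ _).trans (min_le_right _ _)
  obtain ⟨ε2, hε2⟩ : ∃ ε2 : ℝ, ε2 = min ε1 (θ / X) := ⟨_, rfl⟩
  have hε20 : 0 < ε2 := by rw [hε2]; exact lt_min hε10 (by positivity)
  have hε21 : ε2 ≤ ε1 := by rw [hε2]; exact min_le_left _ _
  have hε22 : ε2 ≤ θ / X := by rw [hε2]; exact min_le_right _ _
  obtain ⟨R0, T1, hR0, hT1, ht⟩ := tail m X C hm hX hC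
  obtain ⟨R, hR⟩ : ∃ R : ℝ, R = max R0 (C + X + 2) := ⟨_, rfl⟩
  have hRR0 : R0 ≤ R := by rw [hR]; exact le_max_left _ _
  have hRCX : C + X + 2 ≤ R := by rw [hR]; exact le_max_right _ _
  obtain ⟨T2, hT2, hp⟩ := hφ ε1 R hε10 (hR0.trans hRR0)
  obtain ⟨T3, hT3, hl⟩ := profL hy0 h ε2 R hε20 (hR0.trans hRR0)
  obtain ⟨T5, hT5, hJd⟩ := JT_diff
  obtain ⟨T6, hT6⟩ : ∃ T6 : ℝ, ∀ t : ℝ, T6 ≤ t → 2 * Om t / m ≤ Real.exp (ε1 * Om t) := by
    have h1 : Tendsto (fun x : ℝ => Real.exp (ε1 * x) / x) atTop atTop := by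
      have := tendsto_exp_mul_div_rpow_atTop 1 ε1 hε10
      simpa using this
    have h2 := (h1.comp Om_tendsto).eventually_ge_atTop (2 / m)
    obtain ⟨t3, ht3⟩ := Filter.eventually_atTop.1 (h2.and (Om_tendsto.eventually_gt_atTop 0))
    refine ⟨t3, fun t ht => ?_⟩
    obtain ⟨h3, h4⟩ := ht3 t ht
    simp only [Function.comp] at h3
    rw [le_div_iff₀ h4] at h3
    calc 2 * Om t / m = 2 / m * Om t := by ring
      _ ≤ _ := h3
  obtain ⟨T4, hT4, hO⟩ := Om_large (max (max (4 * X + 1) (X * (30000 ^ 2 + 25 / ρ ^ 2)))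
    (max (4 / κ * (R + 1)) (1 / ε1)))
  refine ⟨max (max (max T1 T2) (max T3 T4)) (max T5 T6), ?_, ?_⟩
  · exact hT5.trans ((le_max_left _ _).trans (le_max_right _ _))
  intro T τ hT hτ h1 h2 σ hσ0 haC hag2 hoff
  have g0 : max (max T1 T2) (max T3 T4) ≤ T := (le_max_left _ _).trans hT
  have g1 : T1 ≤ T := ((le_max_left _ _).trans (le_max_left _ _)).trans g0
  have g2 : T2 ≤ T := ((le_max_right _ _).trans (le_max_left _ _)).trans g0
  have g3 : T3 ≤ T := ((le_max_left _ _).trans (le_max_right _ _)).trans g0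
  have g4 : T4 ≤ T := ((le_max_right _ _).trans (le_max_right _ _)).trans g0
  have g5 : T5 ≤ T := ((le_max_left _ _).trans (le_max_right _ _)).trans hT
  have g6 : T6 ≤ T := ((le_max_right _ _).trans (le_max_right _ _)).trans hT
  have hTp : 0 < T := by linarith only [hT1, g1]
  have hOm := hO T g4
  have hOm1 : 4 * X + 1 ≤ Om T := ((le_max_left _ _).trans (le_max_left _ _)).trans hOm
  have hOm2 : X * (30000 ^ 2 + 25 / ρ ^ 2) ≤ Om T := ((le_max_right _ _).trans (le_max_left _ _)).trans hOm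
  have hOm3 : 4 / κ * (R + 1) ≤ Om T := ((le_max_left _ _).trans (le_max_right _ _)).trans hOm
  have hOm4 : 1 / ε1 ≤ Om T := ((le_max_right _ _).trans (le_max_right _ _)).trans hOm
  clear hOm
  have hgr := hT6 T g6
  have hLp : 0 < Om T := by linarith only [hOm1, hXp]
  have hOm3' : 4 * (R + 1) ≤ κ * Om T := by
    rw [div_mul_eq_mul_div, div_le_iff₀ hκ0] at hOm3
    linarith only [hOm3]
  have hOm4' : 1 ≤ ε1 * Om T := by
    rw [div_le_iff₀ hε10] at hOm4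
    linarith only [hOm4]
  have hτ8 : τ ≤ 1 / 8 := by
    by_contra hcon
    push Not at hcon
    have : 1 / 8 * Om T ≤ τ * Om T := by gcongr
    linarith only [this, h2, hOm1, hXp]
  obtain ⟨a, had⟩ : ∃ a : ℂ, a = ((σ / (2 * τ) : ℝ) : ℂ) := ⟨_, rfl⟩
  have hare : a.re = σ / (2 * τ) := by rw [had, Complex.ofReal_re]
  have haim : a.im = 0 := by rw [had, Complex.ofReal_im]
  rw [← had]
  obtain ⟨hJi, -⟩ := hJd T τ g5 hτ hτ8 a
  obtain ⟨s, hs⟩ : ∃ s : ℝ, s = Real.sqrt (1 / (2 * τ)) := ⟨_, rfl⟩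
  have hs2 : s ^ 2 = 1 / (2 * τ) := by rw [hs]; exact Real.sq_sqrt (by positivity)
  have hs0 : 0 ≤ s := by rw [hs]; exact Real.sqrt_nonneg _
  have hsL : Om T / X ≤ s ^ 2 := by
    rw [hs2, div_le_div_iff₀ hXp (by positivity)]; linarith only [h2]
  have hsL2 : s ^ 2 ≤ Om T / m := by
    rw [hs2, div_le_div_iff₀ (by positivity) hm]; linarith only [h1]
  have hs3 : 30000 ^ 2 + 25 / ρ ^ 2 ≤ s ^ 2 := by
    refine le_trans ?_ hsL
    rw [le_div_iff₀ hXp]; linarith only [hOm2]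
  have hs4 : 30000 ≤ s := by
    have h0 : (0 : ℝ) ≤ 25 / ρ ^ 2 := by positivity
    exact (sq_le_sq₀ (by norm_num) hs0).1 (by linarith only [h0, hs3])
  have hs5 : 5 / ρ ≤ s := by
    refine (sq_le_sq₀ (by positivity) hs0).1 ?_
    rw [div_pow]
    have e : (5 : ℝ) ^ 2 = 25 := by norm_num
    rw [e]
    linarith only [hs3]
  have hs1 : 1 ≤ s := by linarith only [hs4]
  have hσ : σ = 2 * τ * a.re := by rw [hare]; field_simp
  obtain ⟨b, hb⟩ : ∃ b : ℝ, b = 2 * τ * a.im := ⟨_, rfl⟩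
  have hac : |b| ≤ c := by rw [hb, haim, mul_zero, abs_zero]; exact hc0.le
  obtain ⟨z, hz⟩ : ∃ z : ℂ, z = I * T + 2 * τ * a := ⟨_, rfl⟩
  obtain ⟨p, hpd⟩ : ∃ p : ℂ, p = z + ((2 * τ * Om T : ℝ) : ℂ) := ⟨_, rfl⟩
  have hzr : z.re = σ := by rw [hz, hσ]; simp [Complex.mul_re]
  have hzi : z.im = T + b := by rw [hz, hb]; simp [Complex.mul_im]
  have hρb : |b| + ρ ≤ 1 := by linarith only [hac, hc1, hρ2]
  have hq1 : y + ε2 ≤ σ + 2 * τ * Om T - ρ := by linarith only [hag2, hρ1, hε21, hε13]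
  have hq2 : σ + 2 * τ * Om T + ρ ≤ R := by linarith only [haC, h2, hρ2, hRCX]
  have hLc : Lc ρ s θ (Om T : ℂ) p XX := lc_of (R := R) (y := y) hτ hs2 hXp h2 hθ0.le hε22 hLp.le
    (fun u h1 h2 h3 => ⟨(hl T g3 u h1 h2 h3).1, (hl T g3 u h1 h2 h3).2.1⟩) hpd hzr hzi hρb hq1 hq2
  obtain ⟨w0, hw0, -, hw2⟩ := sad hρ0 hρ2 hs4 hs5 hθ0 hθ1 hLc
  have hzz : p - (Om T : ℂ) / (s : ℂ) ^ 2 = z := by
    have e1 : ((s : ℂ)) ^ 2 = ((1 / (2 * τ) : ℝ) : ℂ) := by rw [← hs2]; push_cast; ring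
    rw [e1, hpd]
    have : (τ : ℂ) ≠ 0 := by exact_mod_cast hτ.ne'
    push_cast
    field_simp
    ring
  rw [hzz, ← ha0] at hw2
  have hpr : p.re = σ + 2 * τ * Om T := by rw [hpd, Complex.add_re, Complex.ofReal_re, hzr]
  have hpi : p.im = T + b := by rw [hpd, Complex.add_im, Complex.ofReal_im, hzi, add_zero]
  have hv1 : |w0.re - (σ + 2 * τ * Om T)| ≤ θ := by
    have := (Complex.abs_re_le_norm (w0 - p)).trans hw0
    rwa [Complex.sub_re, hpr] at this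
  have hv2 : |w0.im - (T + b)| ≤ θ := by
    have := (Complex.abs_im_le_norm (w0 - p)).trans hw0
    rwa [Complex.sub_im, hpi] at this
  have hv1' := abs_le.1 hv1
  have hv2' := abs_le.1 hv2
  have hac' := abs_le.1 hac
  have hre0 : (w0 - I * (T : ℂ)).re = w0.re := by simp
  have him0 : (w0 - I * (T : ℂ)).im = w0.im - T := by simp
  have himb : |w0.im - T| ≤ 1 := by
    rw [abs_le]; constructor <;> linarith only [hv2'.1, hv2'.2, hac'.1, hac'.2, hθ2, hc1]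
  obtain ⟨s1, -, s3, -⟩ := hl T g3 (w0 - I * T)
    (by rw [hre0]; linarith only [hv1'.1, hq1, hρ0, hθ1])
    (by rw [hre0]; linarith only [hv1'.2, hq2, hρ0, hθ1]) (by rw [him0]; exact himb)
  rw [show I * (T : ℂ) + (w0 - I * T) = w0 by ring] at s1 s3
  rw [hre0] at s3
  have hHp : 0 < ‖HH (I * T)‖ := by
    have h0 : HH (I * T) ≠ 0 := by
      apply Pool.Agent.H24R2.JP.StirAux.HH_ne
      simpa using hTp
    exact norm_pos_iff.2 h0
  have hc4 : c ^ 2 / (4 * τ) ≤ κ / 16 * Om T := by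
    refine (inv_le hτ hm h1 (by positivity)).trans ?_
    rw [div_le_iff₀ (by positivity)]
    have e1 : c ^ 2 ≤ κ * m / 8 := by
      have : c * c ≤ 1 * (κ * m / 8) := mul_le_mul (by linarith only [hc1]) hc2 hc0.le (by norm_num)
      linarith only [this]
    have e2 : c ^ 2 * Om T ≤ κ * m / 8 * Om T := mul_le_mul_of_nonneg_right e1 hLp.le
    linarith only [e2]
  have hfin := core_step2 (a := a) (w0 := w0) (z := z) (R0 := R0) (R := R) (T := T) (L := Om T) (b := b)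
    hτ hm hXp h1 h2 hLp hs2 hs1 hsL2 hσ0 hg
    (by linarith only [hag2] : y + g ≤ σ + 2 * τ * Om T) hy0 hρ0 hρ1 hρ2 ha0 hκ0 hκ3 hc1 hc4 hε10 hε12
    hθ0 hθ1 hθ2 hθ3 hθ4 hε21 hgr hHp hz hσ hb hac hzr hzi hRR0
    (by linarith only [haC, h2, hRCX]) hOm3' hOm4' hv1 hv2 s3 hw2
    (by
      intro w q1 q2 q3 q4
      have e1 : (w - I * (T : ℂ)).re = w.re := by simp
      have e2 : (w - I * (T : ℂ)).im = w.im - T := by simp
      have q5 : |w.im - T| ≤ 1 := by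
        rw [hzi, abs_le] at q3
        rw [abs_le]
        constructor <;> linarith only [q3.1, q3.2, hac'.1, hac'.2, hc1]
      have h5 := hp T g2 (w - I * T) (by rw [e1]; exact q1) (by rw [e1]; exact q2)
        (by rw [e2]; exact q5)
      rw [show I * (T : ℂ) + (w - I * T) = w by ring, e1] at h5
      refine pt_near2 hτ hLp hs2 (hoff w.re q1 ?_) hκ0 hε12 hc4 hzr q3 h5 hHp.le
      have h6 : |w.re - w0.re| ≤ |w.re - (σ + 2 * τ * Om T)| + |w0.re - (σ + 2 * τ * Om T)| := by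
        have := abs_sub (w.re - (σ + 2 * τ * Om T)) (w0.re - (σ + 2 * τ * Om T))
        rwa [show w.re - (σ + 2 * τ * Om T) - (w0.re - (σ + 2 * τ * Om T)) = w.re - w0.re by ring] at this
      rw [← hρ, ← ha0]
      linarith only [h6, q4, hv1, hθ1, ha0, hρ0])
    (fun r hr => ht T τ a.re r g1 hτ h1 h2 (by rw [← hσ]; exact haC) hr) hJi
  rw [norm_mul, Complex.norm_exp] at hfin
  have e2 : (-((τ : ℂ) * a ^ 2)).re = -(τ * a.re ^ 2) := by
    rw [Complex.neg_re, Complex.re_ofReal_mul, re_sq, haim]; ring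
  rw [e2] at hfin
  have e5 : ‖JT τ T a‖ = Real.exp (τ * a.re ^ 2) *
      (Real.exp (-(τ * a.re ^ 2)) * ‖JT τ T a‖) := by
    rw [← mul_assoc, ← Real.exp_add]; simp
  rw [e5]
  calc Real.exp (τ * (Om T + σ / (2 * τ)) ^ 2 - δ * Om T) * ‖HH (I * T)‖
      ≤ Real.exp (τ * a.re ^ 2 + ((Om T * σ + τ * Om T ^ 2) - 4 * ε1 * Om T)) * ‖HH (I * T)‖ := by
        have e6 : τ * (Om T + σ / (2 * τ)) ^ 2 = τ * a.re ^ 2 + (Om T * σ + τ * Om T ^ 2) := by
          rw [← hare, hσ]; ring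
        have e7 : 8 * ε1 * Om T ≤ δ * Om T := mul_le_mul_of_nonneg_right (by linarith only [hε11]) hLp.le
        have e8 : 0 < ε1 * Om T := by positivity
        have : τ * (Om T + σ / (2 * τ)) ^ 2 - δ * Om T ≤
            τ * a.re ^ 2 + ((Om T * σ + τ * Om T ^ 2) - 4 * ε1 * Om T) := by
          rw [e6]
          linarith only [e7, e8]
        gcongr
    _ = Real.exp (τ * a.re ^ 2) *
        (Real.exp ((Om T * σ + τ * Om T ^ 2) - 4 * ε1 * Om T) * ‖HH (I * T)‖) := by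
        rw [Real.exp_add, mul_assoc]
    _ ≤ _ := by gcongr

end Pool.Agent.W186.SN
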