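import Pool.Agent.W186.SN.X11

set_option autoImplicit false

/-!
# Size of the flow in a window without zeros to the right of `η`
-/

namespace Pool.Agent.W186.SN

open Complex Filter Topology MeasureTheory Set
open Pool.Agent.H24R2.JP (XX HH Om)
open Pool.Agent.H24R2.JP.StirAux
open Pool.Agent.H986R2.DBN (JT XT)
open Pool.Agent.W186.HZ

lemma wtE (m X ε η : ℝ) (hm : 0 < m) (hX : m ≤ X) (hε : 0 < ε) (hε4 : ε ≤ 1 / 4) (hη0 : 0 ≤ η) (hη1 : η ≤ 1 / 2) : ∃ T0 : ℝ, 400 ≤ T0 ∧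
    ∀ T τ : ℝ, T0 ≤ T → 0 < τ → m ≤ 2 * τ * Om T → 2 * τ * Om T ≤ X →
      (∀ w : ℂ, η < w.re → |w.im - T| ≤ 10 → XT τ w ≠ 0) → ∀ σ : ℝ, η + ε ≤ σ → σ ≤ 3 →
      ‖logDeriv (XT τ) (σ + I * T) - (Om T : ℂ)‖ ≤ ε * Om T ∧
      Real.exp (Om T * (σ + τ * Om T - ε)) * ‖HH (I * T)‖ ≤ ‖XT τ (σ + I * T)‖ ∧
      ‖XT τ (σ + I * T)‖ ≤ Real.exp (Om T * (σ + τ * Om T + ε)) * ‖HH (I * T)‖ := by
  obtain ⟨K0, hK0, hgb⟩ := gW_bounds11 m X hm hX
  obtain ⟨ε', hε', hsab⟩ := Pool.Agent.H986R2.K4.sab ε (ε / 2) K0 hε hε4 (by linarith) hK0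
  obtain ⟨T1, hT1, hb⟩ := hgb ε' hε'
  obtain ⟨KH, hKH, hHH⟩ := Pool.Agent.H986R2.K4.hh
  obtain ⟨T3, hT3, hH⟩ := hHH 10 (by norm_num)
  obtain ⟨T4, hT4, hO⟩ := Om_large (max 1 (10 * KH * (2 / ε)))
  refine ⟨max T1 (max T3 T4), hT1.trans (le_max_left _ _), ?_⟩
  intro T τ hT hτ h1 h2 hz σ hσ0 hσ1
  have g1 : T1 ≤ T := (le_max_left _ _).trans hT
  have g3 : T3 ≤ T := ((le_max_left _ _).trans (le_max_right _ _)).trans hT
  have g4 : T4 ≤ T := ((le_max_right _ _).trans (le_max_right _ _)).trans hT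
  have hOm := hO T g4
  have hO2 : 1 ≤ Om T := (le_max_left _ _).trans hOm
  have hO3 : 10 * KH * (2 / ε) ≤ Om T := (le_max_right _ _).trans hOm
  have hO3' : 10 * KH ≤ ε / 2 * Om T := by
    have := mul_le_mul_of_nonneg_left hO3 (by positivity : 0 ≤ ε / 2)
    refine le_trans (le_of_eq ?_) this
    field_simp
  have hT400 : 400 ≤ T := hT4.trans g4
  have hne : ∀ u : ℂ, η < u.re → |u.im| ≤ 10 → XT τ (I * T + u) ≠ 0 := by
    intro u hu0 hu1
    apply hz
    · simpa using hu0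
    · simpa using hu1
  have hre : ∀ u : ℂ, (u + (η : ℂ)).re = u.re + η := fun u => by simp
  have him' : ∀ u : ℂ, (u + (η : ℂ)).im = u.im := fun u => by simp
  have key := hsab (Om T) (fun u => gW τ T (u + η)) hO2 (by
    intro u hu0 hu1 hu2
    have hn := hne (u + η) (by rw [hre]; linarith) (by rw [him']; exact hu2)
    have hu2' := abs_le.1 hu2
    have hp : 0 < T + (u + (η : ℂ)).im := by rw [him']; linarith
    refine ⟨?_, ?_, (hb T τ g1 hτ h1 h2 (u + η) (by rw [hre]; linarith) (by rw [hre]; linarith)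
      (by rw [him']; linarith)).1⟩
    · have := (gW_deriv hτ.le hp hn).1
      exact this.comp u ((differentiableAt_id).add_const (η : ℂ))
    · rw [← norm_pos_iff, gW_norm]
      have him : 0 < (I * (T : ℂ) + (u + η)).im := by simpa using hp
      have := norm_pos_iff.2 (HH_ne him)
      have := norm_pos_iff.2 hn
      positivity) (by
    intro u hu0 hu1 hu2
    exact (hb T τ g1 hτ h1 h2 (u + η) (by rw [hre]; linarith) (by rw [hre]; linarith)
      (by rw [him']; linarith)).2 (by rw [hre]; linarith)) ((σ - η : ℝ) : ℂ) (by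
        rw [Complex.ofReal_re]; linarith)
    (by rw [Complex.ofReal_re]; linarith) (by simp)
  have esh : ((σ - η : ℝ) : ℂ) + (η : ℂ) = (σ : ℂ) := by push_cast; ring
  have eld : logDeriv (fun u => gW τ T (u + η)) ((σ - η : ℝ) : ℂ) = logDeriv (gW τ T) (σ : ℂ) := by
    rw [logDeriv_apply, logDeriv_apply, deriv_comp_add_const, esh]
  rw [eld] at key
  simp only [esh] at key
  obtain ⟨k1, k2, k3⟩ := key
  have hn := hne (σ : ℂ) (by simpa using (by linarith : η < σ)) (by simp)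
  have hσT : 0 < T + (σ : ℂ).im := by simp; linarith
  rw [(gW_deriv hτ.le hσT hn).2] at k1
  rw [gW_norm] at k2 k3
  obtain ⟨d1, d2, d0, d3, d4⟩ := hH T (σ : ℂ) g3 (by
    rw [Complex.norm_real, Real.norm_eq_abs, abs_of_pos (by linarith)]; linarith)
  obtain ⟨-, e2, -, -, -⟩ := hH T 0 g3 (by simp)
  rw [add_zero] at e2
  have hHp : 0 < ‖HH (I * T)‖ := norm_pos_iff.2 e2
  have hHu := norm_pos_iff.2 d2
  rw [Complex.ofReal_re] at d3 d4
  rw [add_comm (σ : ℂ)]
  refine ⟨?_, ?_, ?_⟩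
  · have e : logDeriv (XT τ) (I * T + σ) - (Om T : ℂ) = (logDeriv (XT τ) (I * T + σ) - logDeriv HH (I * T + σ)) +
        (logDeriv HH (I * T + σ) - (Om T : ℂ)) := by ring
    rw [e]
    refine (norm_add_le _ _).trans ?_
    linarith only [k1, d0, hO3', hKH]
  · rw [le_div_iff₀ (mul_pos hHu (Real.exp_pos _))] at k2
    refine le_trans ?_ k2
    calc Real.exp (Om T * (σ + τ * Om T - ε)) * ‖HH (I * T)‖
        ≤ Real.exp (-(ε / 2 * Om T) + ((Om T * σ - KH * 10) + τ * Om T ^ 2)) * ‖HH (I * T)‖ := by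
          apply mul_le_mul_of_nonneg_right _ hHp.le
          apply Real.exp_le_exp.2
          linarith only [hO3']
      _ = Real.exp (-(ε / 2 * Om T)) * (Real.exp (Om T * σ - KH * 10) * ‖HH (I * T)‖ * Real.exp (τ * Om T ^ 2)) := by
          rw [Real.exp_add (-(ε / 2 * Om T)), Real.exp_add (Om T * σ - KH * 10)]; ring
      _ ≤ _ := by
          apply mul_le_mul_of_nonneg_left _ (Real.exp_pos _).le
          exact mul_le_mul_of_nonneg_right d3 (Real.exp_pos _).le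
  · rw [div_le_iff₀ (mul_pos hHu (Real.exp_pos _))] at k3
    refine k3.trans ?_
    calc Real.exp (ε / 2 * Om T) * (‖HH (I * T + σ)‖ * Real.exp (τ * Om T ^ 2))
        ≤ Real.exp (ε / 2 * Om T) * (Real.exp (Om T * σ + KH * 10) * ‖HH (I * T)‖ * Real.exp (τ * Om T ^ 2)) := by
          apply mul_le_mul_of_nonneg_left _ (Real.exp_pos _).le
          exact mul_le_mul_of_nonneg_right d4 (Real.exp_pos _).le
      _ = Real.exp (ε / 2 * Om T + ((Om T * σ + KH * 10) + τ * Om T ^ 2)) * ‖HH (I * T)‖ := by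
          rw [Real.exp_add (ε / 2 * Om T), Real.exp_add (Om T * σ + KH * 10)]; ring
      _ ≤ _ := by
          apply mul_le_mul_of_nonneg_right _ hHp.le
          apply Real.exp_le_exp.2
          linarith only [hO3']


end Pool.Agent.W186.SN
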